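import Pool.Agent.H16.Kn.Defs

/-!
# The first Cauchy-Schwarz step
-/

open MeasureTheory
open scoped RealInnerProductSpace

namespace Pool.Agent.H16.Kn

namespace CS69

theorem kr_int {B R : ℝ} {q : ℂ → ℝ} (hq : Kr B R q) : Integrable q := by
  have h1 : IntegrableOn q (Metric.closedBall 0 R) volume := by
    refine Measure.integrableOn_of_bounded (M := B) ?_ hq.meas.aestronglyMeasurable ?_
    · exact (measure_closedBall_lt_top).ne
    · filter_upwards with x; exact hq.le x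
  rwa [integrableOn_iff_integrable_of_support_subset] at h1
  intro x hx
  rw [Metric.mem_closedBall, dist_zero_right]
  by_contra h
  exact hx (hq.supp x (not_le.mp h))

/-- Cauchy-Schwarz for real functions -/
theorem cs_real {f D : ℂ → ℝ} (hf : MemLp f 2) (hD : MemLp D 2) :
    (∫ x, f x * D x) ^ 2 ≤ (∫ x, f x ^ 2) * ∫ x, D x ^ 2 := by
  have h := integral_mul_le_Lp_mul_Lq_of_nonneg (μ := (volume : Measure ℂ))
    (f := fun s => |f s|) (g := fun s => |D s|) Real.HolderConjugate.two_two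
    (by filter_upwards with s; exact abs_nonneg _) (by filter_upwards with s; exact abs_nonneg _)
    (by simpa using hf.norm) (by simpa using hD.norm)
  have h' : ∫ x, |f x| * |D x| ≤ √(∫ x, f x ^ 2) * √(∫ x, D x ^ 2) := by
    simpa [Real.sqrt_eq_rpow] using h
  have h1 : |∫ x, f x * D x| ≤ ∫ x, |f x| * |D x| := by
    refine (abs_integral_le_integral_abs).trans (le_of_eq ?_)
    simp_rw [abs_mul]
  have h2 : |∫ x, f x * D x| ≤ √((∫ x, f x ^ 2) * ∫ x, D x ^ 2) := by
    rw [Real.sqrt_mul (by positivity)]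
    exact h1.trans h'
  have h0 : 0 ≤ (∫ x, f x ^ 2) * ∫ x, D x ^ 2 := by positivity
  calc (∫ x, f x * D x) ^ 2 = |∫ x, f x * D x| ^ 2 := (sq_abs _).symm
    _ ≤ √((∫ x, f x ^ 2) * ∫ x, D x ^ 2) ^ 2 := by gcongr
    _ = (∫ x, f x ^ 2) * ∫ x, D x ^ 2 := Real.sq_sqrt h0

end CS69

open CS69 in
theorem step1 (a₁ a₂ : ℂ) (B R V l : ℝ) (q f : ℂ → ℝ) (hq : Kr B R q) (hf : Fn V f) :
    (∫ x : ℂ, ∫ v : ℂ, q v * (f x * f (x + (l : ℂ) * a₁ * v) * f (x + (l : ℂ) * a₂ * v))) ^ 2 ≤
      V * ∫ g : ℂ, ∫ v : ℂ, q v * q (v + g) *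
        c4 f ((l : ℂ) * a₁ * g) ((l : ℂ) * a₂ * g) ((l : ℂ) * (a₂ - a₁) * v) := by
  have hqi := kr_int hq
  have hfm := hf.meas
  have hqm := hq.meas
  have hf2 : MemLp f 2 := by
    rw [memLp_two_iff_integrable_sq hfm.aestronglyMeasurable]
    refine hf.int.mono' (hfm.pow_const 2).aestronglyMeasurable ?_
    filter_upwards with x
    rw [Real.norm_of_nonneg (by positivity)]
    nlinarith [hf.nonneg x, hf.le_one x]
  -- the pair kernel
  let K : ℂ → ℂ → ℝ := fun x v => q v * (f (x + (l : ℂ) * a₁ * v) * f (x + (l : ℂ) * a₂ * v))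
  let D : ℂ → ℝ := fun x => ∫ v, K x v
  let Φ : ℂ × (ℂ × ℂ) → ℝ := fun z => K z.1 z.2.1 * K z.1 (z.2.1 + z.2.2)
  have hKm : Measurable (fun z : ℂ × ℂ => K z.1 z.2) := by
    simp only [K]
    exact (hqm.comp measurable_snd).mul ((hfm.comp (by fun_prop)).mul (hfm.comp (by fun_prop)))
  have hΦm : Measurable Φ := by
    have h1 : Measurable (fun z : ℂ × (ℂ × ℂ) => K z.1 z.2.1) :=
      hKm.comp (g := fun z : ℂ × ℂ => K z.1 z.2) (f := fun z : ℂ × (ℂ × ℂ) => (z.1, z.2.1))
        (by fun_prop)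
    have h2 : Measurable (fun z : ℂ × (ℂ × ℂ) => K z.1 (z.2.1 + z.2.2)) :=
      hKm.comp (g := fun z : ℂ × ℂ => K z.1 z.2)
        (f := fun z : ℂ × (ℂ × ℂ) => (z.1, z.2.1 + z.2.2)) (by fun_prop)
    exact h1.mul h2
  let Q2 : ℂ × ℂ → ℝ := fun z => |q z.1| * |q (z.1 + z.2)|
  have hQ2 : Integrable Q2 (volume.prod volume) := by
    have h1 : Integrable (fun z : ℂ × ℂ => |q z.1| * |q z.2|) (volume.prod volume) :=
      hqi.abs.mul_prod hqi.abs
    have h2 := (measurePreserving_prod_add (volume : Measure ℂ) (volume : Measure ℂ))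
    exact (h2.integrable_comp h1.aestronglyMeasurable).mpr h1
  have hG : Integrable (fun z : ℂ × (ℂ × ℂ) => f (z.1 + (l : ℂ) * a₁ * z.2.1) * Q2 z.2)
      (volume.prod (volume.prod volume)) := by
    have hm : Measurable (fun z : ℂ × (ℂ × ℂ) => f (z.1 + (l : ℂ) * a₁ * z.2.1) * Q2 z.2) := by
      simp only [Q2]
      refine (hfm.comp (by fun_prop)).mul (Measurable.mul ?_ ?_)
      · exact (hqm.comp (by fun_prop)).abs
      · exact (hqm.comp (by fun_prop)).abs
    rw [integrable_prod_iff' hm.aestronglyMeasurable]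
    refine ⟨?_, ?_⟩
    · filter_upwards with z
      exact (hf.int.comp_add_right _).mul_const _
    · have e : (fun z : ℂ × ℂ => ∫ x, ‖f (x + (l : ℂ) * a₁ * z.1) * Q2 z‖) =
          fun z => (∫ x, f x) * Q2 z := by
        ext z
        have h1 : ∀ x, ‖f (x + (l : ℂ) * a₁ * z.1) * Q2 z‖ =
            f (x + (l : ℂ) * a₁ * z.1) * Q2 z := by
          intro x
          rw [Real.norm_of_nonneg]
          have := hf.nonneg (x + (l : ℂ) * a₁ * z.1)
          simp only [Q2]; positivity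
        simp_rw [h1]
        rw [integral_mul_const, integral_add_right_eq_self]
      simp only
      rw [e]
      exact hQ2.const_mul _
  have hΦle : ∀ z : ℂ × (ℂ × ℂ), ‖Φ z‖ ≤ f (z.1 + (l : ℂ) * a₁ * z.2.1) * Q2 z.2 := by
    intro z
    simp only [Φ, K, Q2, Real.norm_eq_abs, abs_mul]
    have n1 := hf.nonneg (z.1 + (l : ℂ) * a₁ * z.2.1)
    have n2 := hf.nonneg (z.1 + (l : ℂ) * a₂ * z.2.1)
    have n3 := hf.nonneg (z.1 + (l : ℂ) * a₁ * (z.2.1 + z.2.2))
    have n4 := hf.nonneg (z.1 + (l : ℂ) * a₂ * (z.2.1 + z.2.2))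
    have m2 := hf.le_one (z.1 + (l : ℂ) * a₂ * z.2.1)
    have m3 := hf.le_one (z.1 + (l : ℂ) * a₁ * (z.2.1 + z.2.2))
    have m4 := hf.le_one (z.1 + (l : ℂ) * a₂ * (z.2.1 + z.2.2))
    rw [abs_of_nonneg n1, abs_of_nonneg n2, abs_of_nonneg n3, abs_of_nonneg n4]
    calc _ ≤ |q z.2.1| * (f (z.1 + (l : ℂ) * a₁ * z.2.1) * 1) *
          (|q (z.2.1 + z.2.2)| * (1 * 1)) := by gcongr
      _ = _ := by ring
  have hΦ : Integrable Φ (volume.prod (volume.prod volume)) :=
    hG.mono' hΦm.aestronglyMeasurable (by filter_upwards with z; exact hΦle z)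
  -- the square of `D`
  have hKx : ∀ x, Integrable (fun z : ℂ × ℂ => Φ (x, z)) (volume.prod volume) := by
    intro x
    refine hQ2.mono' (hΦm.comp (by fun_prop)).aestronglyMeasurable ?_
    filter_upwards with z
    refine (hΦle (x, z)).trans ?_
    have h1 := hf.le_one (x + (l : ℂ) * a₁ * z.1)
    have h2 : 0 ≤ Q2 z := by simp only [Q2]; positivity
    calc f (x + (l : ℂ) * a₁ * z.1) * Q2 z ≤ 1 * Q2 z := by gcongr
      _ = Q2 z := one_mul _
  have hD2 : ∀ x, D x ^ 2 = ∫ z : ℂ × ℂ, Φ (x, z) ∂(volume.prod volume) := by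
    intro x
    rw [integral_prod _ (hKx x), pow_two]
    show (∫ v, K x v) * D x = _
    rw [← integral_mul_const]
    congr 1; ext v
    show K x v * (∫ w, K x w) = ∫ g, K x v * K x (v + g)
    rw [integral_const_mul, integral_add_left_eq_self (fun w => K x w) v]
  have hDm : Measurable D := by
    refine StronglyMeasurable.measurable ?_
    exact StronglyMeasurable.integral_prod_right (f := fun x v => K x v) hKm.stronglyMeasurable
  have hD2i : Integrable (fun x => D x ^ 2) := by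
    simp_rw [hD2]
    exact hΦ.integral_prod_left
  have hDL : MemLp D 2 := by
    rw [memLp_two_iff_integrable_sq hDm.aestronglyMeasurable]
    exact hD2i
  -- the value of the integral of the square
  have hval : ∫ x, D x ^ 2 = ∫ g : ℂ, ∫ v : ℂ, q v * q (v + g) *
      c4 f ((l : ℂ) * a₁ * g) ((l : ℂ) * a₂ * g) ((l : ℂ) * (a₂ - a₁) * v) := by
    simp_rw [hD2]
    have hΦ' : Integrable (Function.uncurry fun (x : ℂ) (z : ℂ × ℂ) => Φ (x, z))
        (volume.prod (volume.prod volume)) := hΦ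
    rw [integral_integral_swap hΦ', integral_prod_symm _ hΦ.integral_prod_right]
    congr 1; ext g
    congr 1; ext v
    simp only [Φ, K]
    rw [c4, ← integral_const_mul,
      ← integral_sub_right_eq_self (fun y => q v * (f (y + (l : ℂ) * a₁ * v) *
        f (y + (l : ℂ) * a₂ * v)) * (q (v + g) * (f (y + (l : ℂ) * a₁ * (v + g)) *
        f (y + (l : ℂ) * a₂ * (v + g))))) ((l : ℂ) * a₁ * v)]
    congr 1; ext y
    rw [show y - (l : ℂ) * a₁ * v + (l : ℂ) * a₁ * v = y by ring,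
      show y - (l : ℂ) * a₁ * v + (l : ℂ) * a₂ * v = y + (l : ℂ) * (a₂ - a₁) * v by ring,
      show y - (l : ℂ) * a₁ * v + (l : ℂ) * a₁ * (v + g) = y + (l : ℂ) * a₁ * g by ring,
      show y - (l : ℂ) * a₁ * v + (l : ℂ) * a₂ * (v + g) =
        y + (l : ℂ) * (a₂ - a₁) * v + (l : ℂ) * a₂ * g by ring]
    ring
  have hT : ∫ x : ℂ, ∫ v : ℂ, q v * (f x * f (x + (l : ℂ) * a₁ * v) *
      f (x + (l : ℂ) * a₂ * v)) = ∫ x, f x * D x := by
    congr 1; ext x
    rw [← integral_const_mul]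
    congr 1; ext v
    simp only [K]; ring
  have hf2V : ∫ x, f x ^ 2 ≤ V := by
    refine le_trans (integral_mono ?_ hf.int ?_) hf.mass
    · exact (memLp_two_iff_integrable_sq hfm.aestronglyMeasurable).mp hf2
    · intro x
      show f x ^ 2 ≤ f x
      nlinarith [hf.nonneg x, hf.le_one x]
  rw [hT, ← hval]
  refine (cs_real hf2 hDL).trans ?_
  have : 0 ≤ ∫ x, D x ^ 2 := by positivity
  gcongr

end Pool.Agent.H16.Kn
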