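import Pool.Agent.H67.Pl.Basic

/-!
# Kernels at comparable scales: definitions
-/

open MeasureTheory
open scoped RealInnerProductSpace

namespace Pool.Agent.H16.Kn

/-- The Gaussian kernel of the plane. -/
noncomputable def gs (t : ℝ) (x : ℂ) : ℝ := 1 / (Real.pi * t) * Real.exp (-(‖x‖ ^ 2 / t))

/-- The modulus of continuity in mean of a kernel. -/
noncomputable def om (k : ℂ → ℝ) (y : ℂ) : ℝ := ∫ x : ℂ, |k (x + y) - k x|

/-- The Gaussian average of the modulus of continuity. -/
noncomputable def Wq (k : ℂ → ℝ) (s : ℝ) : ℝ := ∫ y : ℂ, gs s y * om k y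

/-- The correlation of two functions along the linear flow `L`. -/
noncomputable def cr {X : Type} [AddCommGroup X] [MeasureSpace X] (L : ℂ → X)
    (F' F : X → ℝ) (v : ℂ) : ℝ := ∫ x : X, F' x * F (x + L v)

/-- The energy of a function along the linear flow `L`. -/
noncomputable def En {X : Type} [AddCommGroup X] [MeasureSpace X] (L : ℂ → X) (F : X → ℝ)
    (t : ℝ) : ℝ := ∫ v : ℂ, gs t v * cr L F F v

/-- The four point correlation of `f`. -/
noncomputable def c4 (f : ℂ → ℝ) (h h' w : ℂ) : ℝ :=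
  ∫ y : ℂ, f y * f (y + h) * (f (y + w) * f (y + w + h'))

/-- The box energy of `f`. -/
noncomputable def Ub (f : ℂ → ℝ) (s t : ℝ) : ℝ :=
  ∫ h : ℂ, gs s h * ∫ w : ℂ, gs t w * c4 f h h w

/-- A bounded kernel with bounded support. -/
structure Kr (B R : ℝ) (q : ℂ → ℝ) : Prop where
  meas : Measurable q
  le : ∀ v, |q v| ≤ B
  supp : ∀ v, R < ‖v‖ → q v = 0

/-- A measurable integrable function with values in `[0, 1]` and mass at most `V`. -/
structure Fn (V : ℝ) (f : ℂ → ℝ) : Prop where
  meas : Measurable f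
  nonneg : ∀ x, 0 ≤ f x
  le_one : ∀ x, f x ≤ 1
  int : Integrable f
  mass : ∫ x, f x ≤ V

/-- The autocorrelation of a kernel. -/
noncomputable def ac (q : ℂ → ℝ) (g : ℂ) : ℝ := ∫ v : ℂ, q v * q (v + g)

end Pool.Agent.H16.Kn
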