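import Pool.Agent.H16.Kn.Defs

set_option linter.unusedSectionVars false

/-!
# Gaussian kernels in the plane
-/

open MeasureTheory
open scoped RealInnerProductSpace

namespace Pool.Agent.H16.Kn

theorem gs_nonneg (t : ℝ) (ht : 0 < t) (x : ℂ) : 0 ≤ gs t x := by
  unfold gs
  have := Real.pi_pos
  positivity

theorem gs_pos (t : ℝ) (ht : 0 < t) (x : ℂ) : 0 < gs t x := by
  unfold gs
  have := Real.pi_pos
  positivity

theorem gs_cont (t : ℝ) : Continuous (gs t) := by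
  unfold gs
  fun_prop

theorem gs_neg (t : ℝ) (x : ℂ) : gs t (-x) = gs t x := by
  unfold gs
  rw [norm_neg]

theorem exp_int (b : ℝ) (hb : 0 < b) :
    Integrable (fun x : ℂ => Real.exp (-b * ‖x‖ ^ 2)) := by
  have h1 := GaussianFourier.integrable_cexp_neg_mul_sq_norm_add (V := ℂ) (b := (b : ℂ))
    (by simpa using hb) 0 0
  have h2 := h1.norm
  refine h2.congr (Filter.Eventually.of_forall fun x => ?_)
  simp only [zero_mul, add_zero, Complex.norm_exp]
  congr 1
  have : -(b : ℂ) * (‖x‖ : ℂ) ^ 2 = ((-b * ‖x‖ ^ 2 : ℝ) : ℂ) := by push_cast; ring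
  rw [this, Complex.ofReal_re]

theorem exp_integral (b : ℝ) (hb : 0 < b) :
    ∫ x : ℂ, Real.exp (-b * ‖x‖ ^ 2) = Real.pi / b := by
  rw [GaussianFourier.integral_rexp_neg_mul_sq_norm hb, Complex.finrank_real_complex]
  norm_num

theorem gs_eq (t : ℝ) (x : ℂ) :
    gs t x = 1 / (Real.pi * t) * Real.exp (-t⁻¹ * ‖x‖ ^ 2) := by
  unfold gs
  rw [div_eq_inv_mul (‖x‖ ^ 2), neg_mul]

theorem gs_int (t : ℝ) (ht : 0 < t) : Integrable (gs t) := by
  have h1 := (exp_int t⁻¹ (inv_pos.2 ht)).const_mul (1 / (Real.pi * t))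
  refine h1.congr (Filter.Eventually.of_forall fun x => ?_)
  exact (gs_eq t x).symm

theorem gs_one (t : ℝ) (ht : 0 < t) : ∫ x, gs t x = 1 := by
  simp_rw [gs_eq]
  rw [integral_const_mul, exp_integral _ (inv_pos.2 ht)]
  have := Real.pi_pos
  field_simp

/-- a general change of variables -/
theorem integral_mul_left' (b : ℂ) (hb : b ≠ 0) (c : ℂ → ℝ) :
    ∫ v, c (b * v) = (‖b‖ ^ 2)⁻¹ * ∫ y, c y := by
  have hb' : (‖b‖ : ℂ) ≠ 0 := by
    rw [Ne, Complex.ofReal_eq_zero, norm_eq_zero]; exact hb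
  have hu : b / (‖b‖ : ℂ) ∈ Submonoid.unitSphere ℂ := by
    change b / (‖b‖ : ℂ) ∈ Metric.sphere (0 : ℂ) 1
    rw [mem_sphere_zero_iff_norm, norm_div, Complex.norm_real, norm_norm,
      div_self (norm_ne_zero_iff.2 hb)]
  let u : Circle := ⟨b / (‖b‖ : ℂ), hu⟩
  have h1 : (fun v => c (b * v)) = (fun v => (fun w => c (‖b‖ • w)) (rotation u v)) := by
    funext v
    change c (b * v) = c (‖b‖ • (rotation u v))
    rw [rotation_apply]
    congr 1
    change b * v = (‖b‖ : ℂ) * ((b / (‖b‖ : ℂ)) * v)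
    field_simp
  rw [h1]
  refine ((LinearIsometryEquiv.measurePreserving (rotation u)).integral_comp
    (rotation u).toHomeomorph.measurableEmbedding (fun w => c (‖b‖ • w))).trans ?_
  rw [Measure.integral_comp_smul,
    Complex.finrank_real_complex, smul_eq_mul, abs_of_nonneg (by positivity)]

theorem integrable_mul_left' (b : ℂ) (hb : b ≠ 0) (c : ℂ → ℝ) (hc : Integrable c) :
    Integrable (fun v => c (b * v)) := by
  have hb' : (‖b‖ : ℂ) ≠ 0 := by
    rw [Ne, Complex.ofReal_eq_zero, norm_eq_zero]; exact hb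
  have hu : b / (‖b‖ : ℂ) ∈ Submonoid.unitSphere ℂ := by
    change b / (‖b‖ : ℂ) ∈ Metric.sphere (0 : ℂ) 1
    rw [mem_sphere_zero_iff_norm, norm_div, Complex.norm_real, norm_norm,
      div_self (norm_ne_zero_iff.2 hb)]
  let u : Circle := ⟨b / (‖b‖ : ℂ), hu⟩
  have h1 : (fun v => c (b * v)) = (fun w => c (‖b‖ • w)) ∘ (rotation u) := by
    funext v
    change c (b * v) = c (‖b‖ • (rotation u v))
    rw [rotation_apply]
    congr 1
    change b * v = (‖b‖ : ℂ) * ((b / (‖b‖ : ℂ)) * v)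
    field_simp
  rw [h1, (LinearIsometryEquiv.measurePreserving (rotation u)).integrable_comp_emb
    (rotation u).toHomeomorph.measurableEmbedding]
  exact hc.comp_smul (norm_ne_zero_iff.2 hb)

theorem gs_mul (t : ℝ) (b : ℂ) (hb : b ≠ 0) (v : ℂ) :
    gs t v = ‖b‖ ^ 2 * gs (‖b‖ ^ 2 * t) (b * v) := by
  unfold gs
  have hb' : ‖b‖ ^ 2 ≠ 0 := pow_ne_zero 2 (norm_ne_zero_iff.2 hb)
  rw [norm_mul, mul_pow, mul_div_mul_left _ _ hb']
  by_cases ht : t = 0
  · rw [ht]
    simp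
  have := Real.pi_pos
  field_simp

/-- change of variables `v ↦ b v` in a Gaussian average (no hypothesis on `c`) -/
theorem gs_scale (t : ℝ) (ht : 0 < t) (b : ℂ) (hb : b ≠ 0) (c : ℂ → ℝ) :
    ∫ v, gs t v * c (b * v) = ∫ y, gs (‖b‖ ^ 2 * t) y * c y := by
  have h1 : ∀ v, gs t v * c (b * v) =
      (fun y => ‖b‖ ^ 2 * (gs (‖b‖ ^ 2 * t) y * c y)) (b * v) := by
    intro v
    change _ = ‖b‖ ^ 2 * (gs (‖b‖ ^ 2 * t) (b * v) * c (b * v))
    rw [gs_mul t b hb v]
    ring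
  simp_rw [h1]
  rw [integral_mul_left' b hb (fun y => ‖b‖ ^ 2 * (gs (‖b‖ ^ 2 * t) y * c y)),
    integral_const_mul, inv_mul_cancel_left₀ (pow_ne_zero 2 (norm_ne_zero_iff.2 hb))]

/-- product of two Gaussians -/
theorem gs_mul_gs (s t : ℝ) (hs : 0 < s) (ht : 0 < t) (x y : ℂ) :
    gs s y * gs t (x - y) = gs (s + t) x *
      gs (s * t / (s + t)) (y - ((s / (s + t) : ℝ) : ℂ) * x) := by
  have hst : 0 < s + t := add_pos hs ht
  have hpi := Real.pi_pos
  unfold gs
  have e1 : ∀ a b c d : ℝ, a * Real.exp b * (c * Real.exp d) = a * c * Real.exp (b + d) := by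
    intro a b c d
    rw [Real.exp_add]; ring
  rw [e1, e1]
  congr 1
  · field_simp
  · congr 1
    rw [Complex.sq_norm, Complex.sq_norm, Complex.sq_norm, Complex.sq_norm,
      Complex.normSq_apply, Complex.normSq_apply, Complex.normSq_apply, Complex.normSq_apply]
    simp only [Complex.sub_re, Complex.sub_im, Complex.re_ofReal_mul, Complex.im_ofReal_mul]
    field_simp
    ring

theorem gs_conv (s t : ℝ) (hs : 0 < s) (ht : 0 < t) (x : ℂ) :
    ∫ y, gs s y * gs t (x - y) = gs (s + t) x := by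
  simp_rw [gs_mul_gs s t hs ht]
  rw [integral_const_mul, integral_sub_right_eq_self (gs (s * t / (s + t)))
    (((s / (s + t) : ℝ) : ℂ) * x), gs_one _ (by positivity), mul_one]

/-- the product of the square roots -/
theorem sqrt_mul_sqrt (t : ℝ) (ht : 0 < t) (x k : ℂ) :
    Real.sqrt (gs t x) * Real.sqrt (gs t (x + k)) =
      Real.exp (-(‖k‖ ^ 2 / (4 * t))) * gs t (x + k / 2) := by
  rw [← Real.sqrt_mul (gs_nonneg t ht x)]
  have hpi := Real.pi_pos
  have h1 : gs t x * gs t (x + k) =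
      (Real.exp (-(‖k‖ ^ 2 / (4 * t))) * gs t (x + k / 2)) ^ 2 := by
    unfold gs
    have e1 : ∀ a b c d : ℝ, a * Real.exp b * (c * Real.exp d) = a * c * Real.exp (b + d) := by
      intro a b c d
      rw [Real.exp_add]; ring
    have e2 : ∀ a b c : ℝ, (Real.exp b * (a * Real.exp c)) ^ 2 =
        a * a * Real.exp (b + c + (b + c)) := by
      intro a b c
      rw [Real.exp_add, Real.exp_add]; ring
    rw [e1, e2]
    congr 2
    rw [Complex.sq_norm, Complex.sq_norm, Complex.sq_norm, Complex.sq_norm,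
      Complex.normSq_apply, Complex.normSq_apply, Complex.normSq_apply, Complex.normSq_apply]
    have hk : (k / 2) = ((1 / 2 : ℝ) : ℂ) * k := by push_cast; ring
    rw [hk]
    simp only [Complex.add_re, Complex.add_im, Complex.re_ofReal_mul, Complex.im_ofReal_mul]
    field_simp
    ring
  rw [h1, Real.sqrt_sq]
  exact mul_nonneg (Real.exp_pos _).le (gs_nonneg t ht _)

theorem sqrt_int (t : ℝ) (ht : 0 < t) (k : ℂ) :
    Integrable (fun x => Real.sqrt (gs t x) * Real.sqrt (gs t (x + k))) := by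
  simp_rw [sqrt_mul_sqrt t ht]
  exact ((gs_int t ht).comp_add_right (k / 2)).const_mul _

theorem sqrt_integral (t : ℝ) (ht : 0 < t) (k : ℂ) :
    ∫ x, Real.sqrt (gs t x) * Real.sqrt (gs t (x + k)) = Real.exp (-(‖k‖ ^ 2 / (4 * t))) := by
  simp_rw [sqrt_mul_sqrt t ht]
  rw [integral_const_mul, integral_add_right_eq_self (gs t) (k / 2), gs_one t ht, mul_one]

theorem hell_eq (t : ℝ) (ht : 0 < t) (x k : ℂ) :
    (Real.sqrt (gs t (x + k)) - Real.sqrt (gs t x)) ^ 2 =
      gs t (x + k) + gs t x - 2 * (Real.sqrt (gs t x) * Real.sqrt (gs t (x + k))) := by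
  have h1 := Real.sq_sqrt (gs_nonneg t ht x)
  have h2 := Real.sq_sqrt (gs_nonneg t ht (x + k))
  linear_combination h1 + h2

theorem hell_int (t : ℝ) (ht : 0 < t) (k : ℂ) :
    Integrable (fun x => (Real.sqrt (gs t (x + k)) - Real.sqrt (gs t x)) ^ 2) := by
  simp_rw [hell_eq t ht]
  exact (((gs_int t ht).comp_add_right k).add (gs_int t ht)).sub ((sqrt_int t ht k).const_mul 2)

theorem gs_hell (t : ℝ) (ht : 0 < t) (k : ℂ) :
    ∫ x, (Real.sqrt (gs t (x + k)) - Real.sqrt (gs t x)) ^ 2 ≤ ‖k‖ ^ 2 / t := by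
  simp_rw [hell_eq t ht]
  have i1 := (gs_int t ht).comp_add_right k
  have i4 : Integrable (fun x => gs t (x + k) + gs t x) := i1.add (gs_int t ht)
  rw [integral_sub i4 ((sqrt_int t ht k).const_mul 2),
    integral_add i1 (gs_int t ht), integral_add_right_eq_self (gs t) k, gs_one t ht,
    integral_const_mul, sqrt_integral t ht]
  have h1 := Real.add_one_le_exp (-(‖k‖ ^ 2 / (4 * t)))
  have h2 : 0 ≤ ‖k‖ ^ 2 / t := by positivity
  have h3 : ‖k‖ ^ 2 / (4 * t) = ‖k‖ ^ 2 / t / 4 := by field_simp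
  rw [h3] at h1 ⊢
  linarith

theorem gs_shift (t : ℝ) (ht : 0 < t) (k : ℂ) :
    ∫ x, |gs t (x + k) - gs t x| ≤ 2 * ‖k‖ / Real.sqrt t := by
  by_cases hk : k = 0
  · rw [hk]
    simp
  have hk' : 0 < ‖k‖ := norm_pos_iff.2 hk
  have hst : 0 < Real.sqrt t := Real.sqrt_pos.2 ht
  set l : ℝ := 2 * Real.sqrt t / ‖k‖ with hl
  have hl0 : 0 < l := by positivity
  have i1 := (gs_int t ht).comp_add_right k
  have i2 := hell_int t ht k
  have i4 : Integrable (fun x => gs t (x + k) + gs t x) := i1.add (gs_int t ht)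
  have i5 : Integrable (fun x => (1 / (2 * l)) * (2 * (gs t (x + k) + gs t x))) :=
    (i4.const_mul 2).const_mul _
  have i3 : Integrable (fun x => (l / 2) * (Real.sqrt (gs t (x + k)) - Real.sqrt (gs t x)) ^ 2 +
      (1 / (2 * l)) * (2 * (gs t (x + k) + gs t x))) :=
    (i2.const_mul _).add i5
  have h1 : ∫ x, |gs t (x + k) - gs t x| ≤
      ∫ x, ((l / 2) * (Real.sqrt (gs t (x + k)) - Real.sqrt (gs t x)) ^ 2 +
      (1 / (2 * l)) * (2 * (gs t (x + k) + gs t x))) := by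
    apply integral_mono (i1.sub (gs_int t ht)).abs i3
    intro x
    have e1 := Real.sq_sqrt (gs_nonneg t ht x)
    have e2 := Real.sq_sqrt (gs_nonneg t ht (x + k))
    have e3 := Real.sqrt_nonneg (gs t x)
    have e4 := Real.sqrt_nonneg (gs t (x + k))
    change |gs t (x + k) - gs t x| ≤ (l / 2) * (Real.sqrt (gs t (x + k)) -
      Real.sqrt (gs t x)) ^ 2 + (1 / (2 * l)) * (2 * (gs t (x + k) + gs t x))
    set a := Real.sqrt (gs t (x + k))
    set b := Real.sqrt (gs t x)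
    rw [← e1, ← e2]
    have e5 : |a ^ 2 - b ^ 2| = |a - b| * (a + b) := by
      rw [← abs_of_nonneg (add_nonneg e4 e3), ← abs_mul]
      congr 1
      ring
    rw [e5]
    have e6 : |a - b| * (a + b) ≤ l / 2 * |a - b| ^ 2 + 1 / (2 * l) * (a + b) ^ 2 := by
      have e7 : 0 ≤ (l * |a - b| - (a + b)) ^ 2 / (2 * l) := by positivity
      have e8 : (l * |a - b| - (a + b)) ^ 2 / (2 * l) =
          l / 2 * |a - b| ^ 2 + 1 / (2 * l) * (a + b) ^ 2 - |a - b| * (a + b) := by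
        field_simp
        ring
      linarith
    rw [sq_abs] at e6
    have e9 : 1 / (2 * l) * (a + b) ^ 2 ≤ 1 / (2 * l) * (2 * (a ^ 2 + b ^ 2)) := by
      apply mul_le_mul_of_nonneg_left _ (by positivity)
      nlinarith [sq_nonneg (a - b)]
    linarith
  refine h1.trans ?_
  rw [integral_add (i2.const_mul _) i5,
    integral_const_mul, integral_const_mul, integral_const_mul, integral_add i1 (gs_int t ht),
    integral_add_right_eq_self (gs t) k, gs_one t ht]
  have h2 := gs_hell t ht k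
  have h3 : l / 2 * ∫ x, (Real.sqrt (gs t (x + k)) - Real.sqrt (gs t x)) ^ 2 ≤
      l / 2 * (‖k‖ ^ 2 / t) := mul_le_mul_of_nonneg_left h2 (by positivity)
  have h4 : l / 2 * (‖k‖ ^ 2 / t) = ‖k‖ / Real.sqrt t := by
    have h5 : t = Real.sqrt t ^ 2 := (Real.sq_sqrt ht.le).symm
    rw [hl]
    conv_lhs => rw [h5]
    rw [Real.sqrt_sq hst.le]
    field_simp
  have h6 : 1 / (2 * l) * (2 * (1 + 1)) = ‖k‖ / Real.sqrt t := by
    rw [hl]
    field_simp
    norm_num
  have h7 : 2 * ‖k‖ / Real.sqrt t = ‖k‖ / Real.sqrt t + ‖k‖ / Real.sqrt t := by ring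
  rw [h7]
  linarith

theorem gs_sqrt (t : ℝ) (ht : 0 < t) (k : ℂ) :
    ∫ x, |Real.sqrt (gs t x) * Real.sqrt (gs t (x + k)) - gs t x| ≤ 2 * ‖k‖ / Real.sqrt t := by
  by_cases hk : k = 0
  · rw [hk]
    have h1 : ∀ x : ℂ, |Real.sqrt (gs t x) * Real.sqrt (gs t (x + 0)) - gs t x| = 0 := by
      intro x
      rw [add_zero, Real.mul_self_sqrt (gs_nonneg t ht x), sub_self, abs_zero]
    simp_rw [h1]
    simp
  have hk' : 0 < ‖k‖ := norm_pos_iff.2 hk
  have hst : 0 < Real.sqrt t := Real.sqrt_pos.2 ht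
  set l : ℝ := Real.sqrt t / ‖k‖ with hl
  have hl0 : 0 < l := by positivity
  have i2 := hell_int t ht k
  have i3 : Integrable (fun x => (l / 2) * (Real.sqrt (gs t (x + k)) - Real.sqrt (gs t x)) ^ 2 +
      (1 / (2 * l)) * gs t x) := (i2.const_mul _).add ((gs_int t ht).const_mul _)
  have h1 : ∫ x, |Real.sqrt (gs t x) * Real.sqrt (gs t (x + k)) - gs t x| ≤
      ∫ x, ((l / 2) * (Real.sqrt (gs t (x + k)) - Real.sqrt (gs t x)) ^ 2 +
      (1 / (2 * l)) * gs t x) := by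
    apply integral_mono ((sqrt_int t ht k).sub (gs_int t ht)).abs i3
    intro x
    have e1 := Real.sq_sqrt (gs_nonneg t ht x)
    have e3 := Real.sqrt_nonneg (gs t x)
    change |Real.sqrt (gs t x) * Real.sqrt (gs t (x + k)) - gs t x| ≤
      (l / 2) * (Real.sqrt (gs t (x + k)) - Real.sqrt (gs t x)) ^ 2 + (1 / (2 * l)) * gs t x
    set a := Real.sqrt (gs t (x + k))
    set b := Real.sqrt (gs t x)
    rw [← e1]
    have e5 : |b * a - b ^ 2| = |a - b| * b := by
      have e6 : b * a - b ^ 2 = (a - b) * b := by ring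
      rw [e6, abs_mul, abs_of_nonneg e3]
    rw [e5]
    have e7 : 0 ≤ (l * |a - b| - b) ^ 2 / (2 * l) := by positivity
    have e8 : (l * |a - b| - b) ^ 2 / (2 * l) =
        l / 2 * |a - b| ^ 2 + 1 / (2 * l) * b ^ 2 - |a - b| * b := by
      field_simp
      ring
    rw [sq_abs] at e8
    linarith
  refine h1.trans ?_
  rw [integral_add (i2.const_mul _) ((gs_int t ht).const_mul _),
    integral_const_mul, integral_const_mul, gs_one t ht]
  have h2 := gs_hell t ht k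
  have h3 : l / 2 * ∫ x, (Real.sqrt (gs t (x + k)) - Real.sqrt (gs t x)) ^ 2 ≤
      l / 2 * (‖k‖ ^ 2 / t) := mul_le_mul_of_nonneg_left h2 (by positivity)
  have h4 : l / 2 * (‖k‖ ^ 2 / t) = ‖k‖ / Real.sqrt t / 2 := by
    have h5 : t = Real.sqrt t ^ 2 := (Real.sq_sqrt ht.le).symm
    rw [hl]
    conv_lhs => rw [h5]
    rw [Real.sqrt_sq hst.le]
    field_simp
  have h6 : 1 / (2 * l) * 1 = ‖k‖ / Real.sqrt t / 2 := by
    rw [hl]
    field_simp
  have h7 : 2 * ‖k‖ / Real.sqrt t = 2 * (‖k‖ / Real.sqrt t) := by ring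
  have h8 : 0 ≤ ‖k‖ / Real.sqrt t := by positivity
  rw [h7]
  linarith

/-- comparison of a ball with a Gaussian -/
theorem gs_ball (R : ℝ) (l : ℝ) (hl : 0 < l) (a : ℂ) (ha : a ≠ 0) (c : ℂ → ℝ)
    (hc : ∀ h, 0 ≤ c h) (hci : Integrable (fun h => gs (l ^ 2) h * c h)) :
    ∫ g in Metric.closedBall (0 : ℂ) R, c ((l : ℂ) * a * g) ≤
      Real.pi * Real.exp (R ^ 2 * ‖a‖ ^ 2) / ‖a‖ ^ 2 * ∫ h, gs (l ^ 2) h * c h := by
  have hla : (l : ℂ) * a ≠ 0 := mul_ne_zero (by exact_mod_cast hl.ne') ha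
  have hl2 : 0 < l ^ 2 := by positivity
  have hpi := Real.pi_pos
  have ha' : 0 < ‖a‖ := norm_pos_iff.2 ha
  have hnorm : ‖(l : ℂ) * a‖ = l * ‖a‖ := by
    rw [norm_mul, Complex.norm_real, Real.norm_eq_abs, abs_of_pos hl]
  set M := Real.pi * l ^ 2 * Real.exp (R ^ 2 * ‖a‖ ^ 2) with hM
  have hM0 : 0 < M := by positivity
  have i1 : Integrable (fun g => M * (gs (l ^ 2) ((l : ℂ) * a * g) * c ((l : ℂ) * a * g))) :=
    (integrable_mul_left' _ hla _ hci).const_mul M
  have h1 : ∫ g in Metric.closedBall (0 : ℂ) R, c ((l : ℂ) * a * g) ≤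
      ∫ g in Metric.closedBall (0 : ℂ) R,
        M * (gs (l ^ 2) ((l : ℂ) * a * g) * c ((l : ℂ) * a * g)) := by
    apply integral_mono_of_nonneg (Filter.Eventually.of_forall fun g => hc _) i1.integrableOn
    filter_upwards [ae_restrict_mem (μ := (volume : Measure ℂ))
      (measurableSet_closedBall (x := (0 : ℂ)) (ε := R))] with g hg
    rw [mem_closedBall_zero_iff] at hg
    have e1 : 1 ≤ M * gs (l ^ 2) ((l : ℂ) * a * g) := by
      unfold gs
      rw [norm_mul, hnorm, hM]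
      have e2 : Real.pi * l ^ 2 * Real.exp (R ^ 2 * ‖a‖ ^ 2) * (1 / (Real.pi * l ^ 2) *
          Real.exp (-((l * ‖a‖ * ‖g‖) ^ 2 / l ^ 2))) =
          Real.exp (R ^ 2 * ‖a‖ ^ 2 + -((l * ‖a‖ * ‖g‖) ^ 2 / l ^ 2)) := by
        rw [Real.exp_add]
        field_simp
      rw [e2]
      apply Real.one_le_exp
      have e3 : (l * ‖a‖ * ‖g‖) ^ 2 / l ^ 2 = ‖g‖ ^ 2 * ‖a‖ ^ 2 := by
        field_simp
      rw [e3]
      have e4 : ‖g‖ ^ 2 ≤ R ^ 2 := by
        apply pow_le_pow_left₀ (norm_nonneg g) hg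
      nlinarith [mul_le_mul_of_nonneg_right e4 (sq_nonneg ‖a‖)]
    change c ((l : ℂ) * a * g) ≤ M * (gs (l ^ 2) ((l : ℂ) * a * g) * c ((l : ℂ) * a * g))
    rw [← mul_assoc]
    exact le_mul_of_one_le_left (hc _) e1
  have h2 : ∫ g in Metric.closedBall (0 : ℂ) R,
        M * (gs (l ^ 2) ((l : ℂ) * a * g) * c ((l : ℂ) * a * g)) ≤
      ∫ g, M * (gs (l ^ 2) ((l : ℂ) * a * g) * c ((l : ℂ) * a * g)) := by
    apply setIntegral_le_integral i1
    refine Filter.Eventually.of_forall fun g => ?_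
    exact mul_nonneg hM0.le (mul_nonneg (gs_nonneg _ hl2 _) (hc _))
  refine (h1.trans h2).trans (le_of_eq ?_)
  rw [integral_const_mul, integral_mul_left' _ hla (fun h => gs (l ^ 2) h * c h), ← mul_assoc,
    hnorm, hM]
  congr 1
  field_simp

end Pool.Agent.H16.Kn
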