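import Pool.Agent.H16.Kn.Defs

/-!
# The modulus of continuity in mean of a kernel
-/

open MeasureTheory Filter Topology
open scoped RealInnerProductSpace

namespace Pool.Agent.H16.Kn

theorem om_nonneg (k : ℂ → ℝ) (y : ℂ) : 0 ≤ om k y :=
  integral_nonneg fun _ => abs_nonneg _

theorem om_le (k : ℂ → ℝ) (hk : Integrable k) (y : ℂ) : om k y ≤ 2 * ∫ x, |k x| := by
  have h1 : Integrable (fun x => k (x + y)) := hk.comp_add_right y
  have h2 : ∫ x, |k (x + y)| = ∫ x, |k x| :=
    integral_add_right_eq_self (fun x => |k x|) y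
  calc om k y ≤ ∫ x, (|k (x + y)| + |k x|) := by
        apply integral_mono (h1.sub hk).abs (h1.abs.add hk.abs)
        intro x
        exact abs_sub _ _
    _ = 2 * ∫ x, |k x| := by
        rw [integral_add h1.abs hk.abs, h2, two_mul]

theorem om_mp (v : ℂ) : MeasurePreserving (fun x : ℂ => x + v) volume volume :=
  measurePreserving_add_right volume v

theorem om_zero (k : ℂ → ℝ) : om k 0 = 0 := by
  simp [om]

theorem om_cont (k : ℂ → ℝ) (hk : Integrable k) : Continuous (om k) := by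
  have hk1 : MemLp k 1 volume := memLp_one_iff_integrable.2 hk
  have h := Lp.compMeasurePreserving_continuous (X := ℂ) (Y := ℂ) volume volume ℝ
    (p := 1) (by norm_num)
  let F : C(ℂ, C(ℂ, ℂ)) := ContinuousMap.curry ⟨fun p : ℂ × ℂ => p.2 + p.1, by fun_prop⟩
  have hF : ∀ v, MeasurePreserving (F v) volume volume := fun v => om_mp v
  have h2 : Continuous (fun v : ℂ => (⟨F v, hF v⟩ :
      {f : C(ℂ, ℂ) // MeasurePreserving f volume volume})) :=
    F.continuous.subtype_mk hF
  have h3 : Continuous (fun v : ℂ =>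
      Lp.compMeasurePreserving (fun x : ℂ => x + v) (om_mp v) (hk1.toLp k)) :=
    h.comp (continuous_const.prodMk h2)
  have h4 : ∀ v : ℂ, om k v =
      ‖Lp.compMeasurePreserving (fun x : ℂ => x + v) (om_mp v) (hk1.toLp k) - hk1.toLp k‖ := by
    intro v
    have e1 : Lp.compMeasurePreserving (fun x : ℂ => x + v) (om_mp v) (hk1.toLp k) =
        (hk1.comp_measurePreserving (om_mp v)).toLp _ := rfl
    rw [e1, L1.norm_eq_integral_norm]
    apply integral_congr_ae
    filter_upwards [Lp.coeFn_sub ((hk1.comp_measurePreserving (om_mp v)).toLp _) (hk1.toLp k),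
      (hk1.comp_measurePreserving (om_mp v)).coeFn_toLp, hk1.coeFn_toLp] with x a b c
    rw [a, Pi.sub_apply, b, c]
    rfl
  have h5 : om k = fun v : ℂ =>
      ‖Lp.compMeasurePreserving (fun x : ℂ => x + v) (om_mp v) (hk1.toLp k) - hk1.toLp k‖ :=
    funext h4
  rw [h5]
  exact (h3.sub continuous_const).norm

theorem om_gs_nonneg (t : ℝ) (ht : 0 < t) (x : ℂ) : 0 ≤ gs t x := by
  unfold gs
  have := Real.pi_pos
  positivity

theorem Wq_nonneg (k : ℂ → ℝ) (s : ℝ) (hs : 0 < s) : 0 ≤ Wq k s :=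
  integral_nonneg fun y => mul_nonneg (om_gs_nonneg s hs y) (om_nonneg k y)

theorem om_exp_int : Integrable (fun x : ℂ => Real.exp (-‖x‖ ^ 2)) := by
  have h := GaussianFourier.integrable_cexp_neg_mul_sq_norm_add (V := ℂ) (b := 1) (by simp) 0 0
  have h2 := h.norm
  refine h2.congr ?_
  filter_upwards with x
  rw [Complex.norm_exp]
  congr 1
  simp [← Complex.ofReal_pow]

theorem om_gs_int : Integrable (gs 1) := by
  have h : gs 1 = fun x : ℂ => 1 / Real.pi * Real.exp (-‖x‖ ^ 2) := by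
    funext x
    simp [gs]
  rw [h]
  exact om_exp_int.const_mul _

/-- the substitution `y = √s z` -/
theorem Wq_eq (k : ℂ → ℝ) (s : ℝ) (hs : 0 < s) :
    Wq k s = ∫ z : ℂ, gs 1 z * om k ((Real.sqrt s : ℝ) • z) := by
  have hr : 0 < Real.sqrt s := Real.sqrt_pos.2 hs
  have h := Measure.integral_comp_smul (volume : Measure ℂ) (fun y => gs s y * om k y)
    (Real.sqrt s)
  rw [Complex.finrank_real_complex, Real.sq_sqrt hs.le, abs_of_pos (inv_pos.2 hs),
    smul_eq_mul] at h
  have h2 : Wq k s = s * ∫ z : ℂ, gs s ((Real.sqrt s : ℝ) • z) * om k ((Real.sqrt s : ℝ) • z) := by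
    rw [h]
    unfold Wq
    rw [mul_inv_cancel_left₀ hs.ne']
  rw [h2, ← integral_const_mul]
  refine integral_congr_ae (Eventually.of_forall fun z => ?_)
  simp only
  rw [← mul_assoc]
  congr 1
  unfold gs
  rw [norm_smul, Real.norm_eq_abs, abs_of_pos hr, mul_pow, Real.sq_sqrt hs.le,
    mul_div_cancel_left₀ _ hs.ne']
  have := Real.pi_pos
  simp only [mul_one, div_one]
  field_simp

theorem Wq_small (k : ℂ → ℝ) (hk : Integrable k) (ε : ℝ) (hε : 0 < ε) :
    ∃ s₀ : ℝ, 0 < s₀ ∧ ∀ s, 0 < s → s ≤ s₀ → Wq k s ≤ ε := by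
  have hc := om_cont k hk
  have hlim : Tendsto (fun s : ℝ => ∫ z : ℂ, gs 1 z * om k ((Real.sqrt s : ℝ) • z))
      (𝓝[>] 0) (𝓝 (∫ z : ℂ, gs 1 z * om k 0)) := by
    apply tendsto_integral_filter_of_dominated_convergence
      (fun z : ℂ => gs 1 z * (2 * ∫ x, |k x|))
    · filter_upwards with s
      apply AEStronglyMeasurable.mul om_gs_int.aestronglyMeasurable
      exact (hc.comp (continuous_const_smul _)).aestronglyMeasurable
    · filter_upwards with s
      filter_upwards with z
      rw [Real.norm_eq_abs, abs_of_nonneg (mul_nonneg (om_gs_nonneg 1 one_pos z)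
        (om_nonneg k _))]
      exact mul_le_mul_of_nonneg_left (om_le k hk _) (om_gs_nonneg 1 one_pos z)
    · exact om_gs_int.mul_const _
    · filter_upwards with z
      apply Tendsto.const_mul
      have h1 : Tendsto (fun s : ℝ => (Real.sqrt s : ℝ) • z) (𝓝[>] 0) (𝓝 0) := by
        have h2 : Tendsto (fun s : ℝ => (Real.sqrt s : ℝ) • z) (𝓝 0)
            (𝓝 ((Real.sqrt 0 : ℝ) • z)) :=
          (Real.continuous_sqrt.smul continuous_const).tendsto 0
        rw [Real.sqrt_zero, zero_smul] at h2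
        exact h2.mono_left nhdsWithin_le_nhds
      exact (hc.tendsto 0).comp h1
  rw [om_zero] at hlim
  simp only [mul_zero, integral_zero] at hlim
  have h1 := (hlim.eventually (gt_mem_nhds hε))
  obtain ⟨u, hu0, hu⟩ := (mem_nhdsGT_iff_exists_Ioo_subset).1 h1
  refine ⟨u / 2, half_pos hu0, fun s hs hsu => ?_⟩
  rw [Wq_eq k s hs]
  have : s ∈ Set.Ioo (0 : ℝ) u := ⟨hs, lt_of_le_of_lt hsu (half_lt_self hu0)⟩
  exact (hu this).le

end Pool.Agent.H16.Kn
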