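import Pool.Agent.H16.Kn.L2
import Pool.Agent.H16.Kn.Om
import Pool.Agent.H16.Kn.Gauss

/-!
# The second step: the kernel becomes a Gaussian
-/

open MeasureTheory
open scoped RealInnerProductSpace

namespace Pool.Agent.H16.Kn

/-! ### Basic facts on the four point correlation -/

private theorem k5_c4_aux {V : ℝ} {f : ℂ → ℝ} (hf : Fn V f) (h h' w y : ℂ) :
    0 ≤ f y * f (y + h) * (f (y + w) * f (y + w + h')) ∧
      f y * f (y + h) * (f (y + w) * f (y + w + h')) ≤ f y := by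
  have h0 := hf.nonneg
  have h1 := hf.le_one
  refine ⟨mul_nonneg (mul_nonneg (h0 _) (h0 _)) (mul_nonneg (h0 _) (h0 _)), ?_⟩
  have e1 : f y * f (y + h) ≤ f y := mul_le_of_le_one_right (h0 _) (h1 _)
  have e2 : f (y + w) * f (y + w + h') ≤ 1 := mul_le_one₀ (h1 _) (h0 _) (h1 _)
  exact (mul_le_of_le_one_right (mul_nonneg (h0 _) (h0 _)) e2).trans e1

theorem c4_bounds (V : ℝ) (f : ℂ → ℝ) (hf : Fn V f) (h h' w : ℂ) :
    0 ≤ c4 f h h' w ∧ c4 f h h' w ≤ V := by
  refine ⟨integral_nonneg fun y => (k5_c4_aux hf h h' w y).1, ?_⟩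
  refine (integral_mono_of_nonneg (Filter.Eventually.of_forall fun y => (k5_c4_aux hf h h' w y).1)
    hf.int (Filter.Eventually.of_forall fun y => (k5_c4_aux hf h h' w y).2)).trans hf.mass

private theorem k5_V_nonneg {V : ℝ} {f : ℂ → ℝ} (hf : Fn V f) : 0 ≤ V :=
  (integral_nonneg hf.nonneg).trans hf.mass

private theorem k5_c4_meas {f : ℂ → ℝ} (hf : Measurable f) :
    Measurable fun p : ℂ × ℂ × ℂ => c4 f p.1 p.2.1 p.2.2 := by
  have h1 : StronglyMeasurable fun p : (ℂ × ℂ × ℂ) × ℂ =>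
      f p.2 * f (p.2 + p.1.1) * (f (p.2 + p.1.2.2) * f (p.2 + p.1.2.2 + p.1.2.1)) := by
    apply Measurable.stronglyMeasurable
    fun_prop
  exact h1.integral_prod_right'.measurable

private theorem k5_c4_symm (f : ℂ → ℝ) (h w : ℂ) : c4 f h h w = c4 f w w h := by
  unfold c4
  congr 1
  funext y
  rw [show y + w + h = y + h + w by ring]
  ring

/-- the inner average -/
private noncomputable def k5_P (f : ℂ → ℝ) (t : ℝ) (h h' : ℂ) : ℝ :=
  ∫ w : ℂ, gs t w * c4 f h h' w

private theorem k5_gs_c4_int {V : ℝ} {f : ℂ → ℝ} (hf : Fn V f) {t : ℝ} (ht : 0 < t) (h h' : ℂ) :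
    Integrable fun w => gs t w * c4 f h h' w := by
  refine (gs_int t ht).mul_bdd (c := V) ?_ ?_
  · exact ((k5_c4_meas hf.meas).comp
      (measurable_const.prodMk (measurable_const.prodMk measurable_id))).aestronglyMeasurable
  · refine Filter.Eventually.of_forall fun w => ?_
    rw [Real.norm_of_nonneg (c4_bounds V f hf h h' w).1]
    exact (c4_bounds V f hf h h' w).2

private theorem k5_P_bounds {V : ℝ} {f : ℂ → ℝ} (hf : Fn V f) {t : ℝ} (ht : 0 < t) (h h' : ℂ) :
    0 ≤ k5_P f t h h' ∧ k5_P f t h h' ≤ V := by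
  constructor
  · exact integral_nonneg fun w => mul_nonneg (gs_nonneg t ht w) (c4_bounds V f hf h h' w).1
  · calc k5_P f t h h' ≤ ∫ w, gs t w * V :=
          integral_mono (k5_gs_c4_int hf ht h h') ((gs_int t ht).mul_const V)
            (fun w => mul_le_mul_of_nonneg_left (c4_bounds V f hf h h' w).2 (gs_nonneg t ht w))
      _ = V := by rw [integral_mul_const, gs_one t ht, one_mul]

private theorem k5_P_meas {f : ℂ → ℝ} (hf : Measurable f) (t : ℝ) :
    Measurable fun p : ℂ × ℂ => k5_P f t p.1 p.2 := by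
  have h1 : StronglyMeasurable fun p : (ℂ × ℂ) × ℂ => gs t p.2 * c4 f p.1.1 p.1.2 p.2 := by
    apply Measurable.stronglyMeasurable
    have h2 : Measurable fun p : (ℂ × ℂ) × ℂ => (p.1.1, p.1.2, p.2) := by fun_prop
    exact ((gs_cont t).measurable.comp measurable_snd).mul ((k5_c4_meas hf).comp h2)
  exact h1.integral_prod_right'.measurable

private theorem k5_P_meas_diag {f : ℂ → ℝ} (hf : Measurable f) (t : ℝ) :
    Measurable fun h : ℂ => k5_P f t h h :=
  (k5_P_meas hf t).comp (measurable_id.prodMk measurable_id)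

private theorem k5_Ub_eq (f : ℂ → ℝ) (s t : ℝ) : Ub f s t = ∫ h, gs s h * k5_P f t h h := rfl

private theorem k5_gs_P_int {V : ℝ} {f : ℂ → ℝ} (hf : Fn V f) {s t : ℝ} (hs : 0 < s)
    (ht : 0 < t) : Integrable fun h => gs s h * k5_P f t h h := by
  refine (gs_int s hs).mul_bdd (c := V) (k5_P_meas_diag hf.meas t).aestronglyMeasurable ?_
  refine Filter.Eventually.of_forall fun w => ?_
  rw [Real.norm_of_nonneg (k5_P_bounds hf ht w w).1]
  exact (k5_P_bounds hf ht w w).2

theorem Ub_bounds (V : ℝ) (f : ℂ → ℝ) (hf : Fn V f) (s t : ℝ) (hs : 0 < s) (ht : 0 < t) :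
    0 ≤ Ub f s t ∧ Ub f s t ≤ V := by
  rw [k5_Ub_eq]
  constructor
  · exact integral_nonneg fun w => mul_nonneg (gs_nonneg s hs w) (k5_P_bounds hf ht w w).1
  · calc ∫ h, gs s h * k5_P f t h h ≤ ∫ w, gs s w * V :=
          integral_mono (k5_gs_P_int hf hs ht) ((gs_int s hs).mul_const V)
            (fun w => mul_le_mul_of_nonneg_left (k5_P_bounds hf ht w w).2 (gs_nonneg s hs w))
      _ = V := by rw [integral_mul_const, gs_one s hs, one_mul]

theorem Ub_symm (V : ℝ) (f : ℂ → ℝ) (hf : Fn V f) (s t : ℝ) (hs : 0 < s) (ht : 0 < t) :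
    Ub f s t = Ub f t s := by
  unfold Ub
  have h1 : ∀ h : ℂ, gs s h * ∫ w, gs t w * c4 f h h w =
      ∫ w, gs s h * (gs t w * c4 f h h w) := fun h => (integral_const_mul _ _).symm
  simp_rw [h1]
  rw [integral_integral_swap]
  · congr 1
    funext w
    rw [← integral_const_mul]
    congr 1
    funext h
    rw [k5_c4_symm f h w]
    ring
  · have h2 : Integrable (fun z : ℂ × ℂ => gs s z.1 * gs t z.2) (volume.prod volume) :=
      (gs_int s hs).mul_prod (gs_int t ht)
    have h3 : Measurable fun z : ℂ × ℂ => (z.1, z.1, z.2) := by fun_prop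
    have h4 := h2.mul_bdd (c := V) ((k5_c4_meas hf.meas).comp h3).aestronglyMeasurable
      (Filter.Eventually.of_forall fun z => by
        simp only [Function.comp]
        rw [Real.norm_of_nonneg (c4_bounds V f hf z.1 z.1 z.2).1]
        exact (c4_bounds V f hf z.1 z.1 z.2).2)
    refine h4.congr (Filter.Eventually.of_forall fun z => ?_)
    simp only [Function.uncurry, Function.comp]
    ring

/-! ### The products -/

private theorem k5_F_int {V : ℝ} {f : ℂ → ℝ} (hf : Fn V f) (h : ℂ) :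
    Integrable fun y => (f y * f (y + h)) ^ 2 := by
  have hm := hf.meas
  refine hf.int.mono' (by fun_prop) (Filter.Eventually.of_forall fun y => ?_)
  have h0 := hf.nonneg
  have h1 := hf.le_one
  have e0 : 0 ≤ f y * f (y + h) := mul_nonneg (h0 _) (h0 _)
  have e1 : f y * f (y + h) ≤ f y := mul_le_of_le_one_right (h0 _) (h1 _)
  rw [Real.norm_of_nonneg (by positivity)]
  nlinarith [h1 y]

private theorem k5_F_memLp {V : ℝ} {f : ℂ → ℝ} (hf : Fn V f) (h : ℂ) :
    MemLp (fun y => f y * f (y + h)) 2 volume := by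
  have hm := hf.meas
  exact (memLp_two_iff_integrable_sq (by fun_prop)).2 (k5_F_int hf h)

private theorem k5_F_sq {V : ℝ} {f : ℂ → ℝ} (hf : Fn V f) (h : ℂ) :
    ∫ y, (f y * f (y + h)) ^ 2 ≤ V := by
  refine (integral_mono (k5_F_int hf h) hf.int fun y => ?_).trans hf.mass
  have h0 := hf.nonneg
  have h1 := hf.le_one
  have e0 : 0 ≤ f y * f (y + h) := mul_nonneg (h0 _) (h0 _)
  have e1 : f y * f (y + h) ≤ f y := mul_le_of_le_one_right (h0 _) (h1 _)
  simp only
  nlinarith [h1 y]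

private theorem k5_P_anti {V : ℝ} {f : ℂ → ℝ} (hf : Fn V f) (h : ℂ) {s t : ℝ} (hs : 0 < s)
    (hst : s ≤ t) : k5_P f t h h ≤ k5_P f s h h :=
  En_anti (X := ℂ) (ContinuousLinearMap.id ℝ ℂ) (fun y => f y * f (y + h)) (k5_F_memLp hf h)
    s t hs hst

theorem Ub_anti (V : ℝ) (f : ℂ → ℝ) (hf : Fn V f) (r s t : ℝ) (hr : 0 < r) (hs : 0 < s)
    (hst : s ≤ t) : Ub f r t ≤ Ub f r s := by
  rw [k5_Ub_eq, k5_Ub_eq]
  exact integral_mono (k5_gs_P_int hf hr (hs.trans_le hst)) (k5_gs_P_int hf hr hs)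
    (fun w => mul_le_mul_of_nonneg_left (k5_P_anti hf w hs hst) (gs_nonneg r hr w))

/-! ### The kernels -/

private theorem k5_vol {r : ℝ} (hr : 0 ≤ r) :
    (volume : Measure ℂ).real (Metric.closedBall 0 r) = Real.pi * r ^ 2 := by
  rw [Measure.real, Complex.volume_closedBall, ENNReal.toReal_mul, ENNReal.toReal_pow,
    ENNReal.toReal_ofReal hr, ENNReal.coe_toReal, NNReal.coe_real_pi]
  ring

private theorem k5_q_int {B R : ℝ} {q : ℂ → ℝ} (hq : Kr B R q) : Integrable q := by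
  have h1 : IntegrableOn q (Metric.closedBall 0 R) := by
    refine Measure.integrableOn_of_bounded (M := B) measure_closedBall_lt_top.ne
      hq.meas.aestronglyMeasurable ?_
    exact Filter.Eventually.of_forall fun x => hq.le x
  refine (integrableOn_iff_integrable_of_support_subset ?_).1 h1
  intro x hx
  rw [mem_closedBall_zero_iff]
  by_contra hc
  exact hx (hq.supp x (not_le.1 hc))

private theorem k5_k_le {B R : ℝ} {q : ℂ → ℝ} (hB : 0 ≤ B) (hq : Kr B R q) (g v : ℂ) :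
    |q v * q (v + g)| ≤ (Metric.closedBall 0 R).indicator (fun _ => B ^ 2) v := by
  by_cases hv : v ∈ Metric.closedBall (0 : ℂ) R
  · rw [Set.indicator_of_mem hv, abs_mul, sq]
    exact mul_le_mul (hq.le _) (hq.le _) (abs_nonneg _) hB
  · rw [Set.indicator_of_notMem hv, hq.supp v, zero_mul, abs_zero]
    rw [mem_closedBall_zero_iff] at hv
    exact not_le.1 hv

private theorem k5_ind_int (R c : ℝ) :
    Integrable ((Metric.closedBall (0 : ℂ) R).indicator (fun _ => c)) := by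
  rw [integrable_indicator_iff measurableSet_closedBall]
  exact integrableOn_const measure_closedBall_lt_top.ne

private theorem k5_k_int {B R : ℝ} {q : ℂ → ℝ} (hB : 0 ≤ B) (hq : Kr B R q) (g : ℂ) :
    Integrable fun v => q v * q (v + g) := by
  have hm := hq.meas
  exact (k5_ind_int R (B ^ 2)).mono' (by fun_prop)
    (Filter.Eventually.of_forall fun v => k5_k_le hB hq g v)

private theorem k5_k_mass {B R : ℝ} {q : ℂ → ℝ} (hB : 0 ≤ B) (hR : 0 ≤ R) (hq : Kr B R q)
    (g : ℂ) : ∫ v, |q v * q (v + g)| ≤ B ^ 2 * Real.pi * R ^ 2 := by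
  calc ∫ v, |q v * q (v + g)| ≤ ∫ v, (Metric.closedBall (0 : ℂ) R).indicator (fun _ => B ^ 2) v :=
        integral_mono (k5_k_int hB hq g).abs (k5_ind_int R _) (fun v => k5_k_le hB hq g v)
    _ = B ^ 2 * Real.pi * R ^ 2 := by
        rw [integral_indicator measurableSet_closedBall, setIntegral_const, k5_vol hR, smul_eq_mul]
        ring

private theorem k5_om_mul {B R : ℝ} {q : ℂ → ℝ} (hq : Kr B R q) (g y : ℂ) :
    om (fun v => q v * q (v + g)) y ≤ 2 * B * om q y := by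
  have hqi := k5_q_int hq
  have h1 : Integrable fun x => |q (x + y) - q x| := ((hqi.comp_add_right y).sub hqi).abs
  have h2 : Integrable fun x => |q (x + g + y) - q (x + g)| := h1.comp_add_right g
  have h3 : ∫ x, |q (x + g + y) - q (x + g)| = om q y :=
    integral_add_right_eq_self (fun x => |q (x + y) - q x|) g
  calc om (fun v => q v * q (v + g)) y
      ≤ ∫ x, (B * |q (x + y) - q x| + B * |q (x + g + y) - q (x + g)|) := by
        refine integral_mono_of_nonneg (Filter.Eventually.of_forall fun x => abs_nonneg _)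
          ((h1.const_mul B).add (h2.const_mul B)) (Filter.Eventually.of_forall fun x => ?_)
        simp only
        have e : q (x + y) * q (x + y + g) - q x * q (x + g) =
            q (x + g + y) * (q (x + y) - q x) + q x * (q (x + g + y) - q (x + g)) := by
          rw [show x + y + g = x + g + y by ring]
          ring
        rw [e]
        refine (abs_add_le _ _).trans ?_
        rw [abs_mul, abs_mul]
        exact add_le_add (mul_le_mul_of_nonneg_right (hq.le _) (abs_nonneg _))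
          (mul_le_mul_of_nonneg_right (hq.le _) (abs_nonneg _))
    _ = 2 * B * om q y := by
        rw [integral_add (h1.const_mul B) (h2.const_mul B), integral_const_mul,
          integral_const_mul, h3]
        unfold om
        ring

private theorem k5_Wq_mul {B R : ℝ} {q : ℂ → ℝ} (hq : Kr B R q) (g : ℂ) {s : ℝ}
    (hs : 0 < s) : Wq (fun v => q v * q (v + g)) s ≤ 2 * B * Wq q s := by
  have hqi := k5_q_int hq
  have h1 : Integrable fun y => gs s y * om q y := by
    refine (gs_int s hs).mul_bdd (c := 2 * ∫ x, |q x|) (om_cont q hqi).aestronglyMeasurable ?_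
    refine Filter.Eventually.of_forall fun y => ?_
    rw [Real.norm_of_nonneg (om_nonneg q y)]
    exact om_le q hqi y
  calc Wq (fun v => q v * q (v + g)) s ≤ ∫ y, 2 * B * (gs s y * om q y) := by
        refine integral_mono_of_nonneg (Filter.Eventually.of_forall fun y =>
          mul_nonneg (gs_nonneg s hs y) (om_nonneg _ y)) (h1.const_mul _)
          (Filter.Eventually.of_forall fun y => ?_)
        simp only
        calc gs s y * om (fun v => q v * q (v + g)) y ≤ gs s y * (2 * B * om q y) :=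
              mul_le_mul_of_nonneg_left (k5_om_mul hq g y) (gs_nonneg s hs y)
          _ = 2 * B * (gs s y * om q y) := by ring
    _ = 2 * B * Wq q s := by rw [integral_const_mul]; rfl

/-! ### One value of `g` -/

/-- the inner integral -/
private noncomputable def k5_A (q f : ℂ → ℝ) (b h h' g : ℂ) : ℝ :=
  ∫ v : ℂ, q v * q (v + g) * c4 f h h' (b * v)

private theorem k5_pt {V : ℝ} {f : ℂ → ℝ} (hf : Fn V f) {B R : ℝ} {q : ℂ → ℝ} (hB : 0 ≤ B)
    (hR : 0 ≤ R) (hq : Kr B R q) {b : ℂ} (hb : b ≠ 0) (h h' g : ℂ) {s t η : ℝ} (hs : 0 < s)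
    (hst : s ≤ t) (hη : 0 < η) :
    |k5_A q f b h h' g - ac q g * k5_P f t h h'| ≤
      (2 * B * Wq q (s / ‖b‖ ^ 2) + 2 * R * ‖b‖ / Real.sqrt t * (B ^ 2 * Real.pi * R ^ 2)) * V +
        B ^ 2 * Real.pi * R ^ 2 * (η * V) +
        B ^ 2 * Real.pi * R ^ 2 / η * (k5_P f (2 * s) h' h' - k5_P f (2 * t) h' h') := by
  have hV := k5_V_nonneg hf
  have ht : 0 < t := hs.trans_le hst
  have hb0 : 0 < ‖b‖ := norm_pos_iff.2 hb
  have hsc : ∀ r c : ℝ, ‖b‖ ^ 2 * (c * (r / ‖b‖ ^ 2)) = c * r := by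
    intro r c
    field_simp
  have e1 := approx (X := ℂ) (ContinuousLinearMap.mul ℝ ℂ b) (fun y => f y * f (y + h))
    (fun y => f y * f (y + h')) (k5_F_memLp hf h) (k5_F_memLp hf h') V (k5_F_sq hf h)
    (k5_F_sq hf h') (fun v => q v * q (v + g)) (k5_k_int hB hq g) R hR
    (fun v hv => by simp only [hq.supp v hv, zero_mul]) (s / ‖b‖ ^ 2) (t / ‖b‖ ^ 2) η
    (by positivity) (by gcongr) hη
  have e2 : ∀ r : ℝ, 0 < r → ∀ k k' : ℂ, ∫ v, gs r v *
      cr (ContinuousLinearMap.mul ℝ ℂ b) (fun y => f y * f (y + k)) (fun y => f y * f (y + k')) v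
      = k5_P f (‖b‖ ^ 2 * r) k k' := by
    intro r hr k k'
    exact gs_scale r hr b hb (c4 f k k')
  have e3 : En (ContinuousLinearMap.mul ℝ ℂ b) (fun y => f y * f (y + h')) (2 * (s / ‖b‖ ^ 2)) =
      k5_P f (2 * s) h' h' := by
    rw [← hsc s 2]
    exact e2 _ (by positivity) h' h'
  have e4 : En (ContinuousLinearMap.mul ℝ ℂ b) (fun y => f y * f (y + h')) (2 * (t / ‖b‖ ^ 2)) =
      k5_P f (2 * t) h' h' := by
    rw [← hsc t 2]
    exact e2 _ (by positivity) h' h'
  have e5 : ∫ v, gs (t / ‖b‖ ^ 2) v * cr (ContinuousLinearMap.mul ℝ ℂ b)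
      (fun y => f y * f (y + h)) (fun y => f y * f (y + h')) v = k5_P f t h h' := by
    have := e2 (t / ‖b‖ ^ 2) (by positivity) h h'
    rw [this]
    congr 1
    field_simp
  rw [e3, e4, e5] at e1
  have e6 : 0 ≤ k5_P f (2 * s) h' h' - k5_P f (2 * t) h' h' :=
    sub_nonneg.2 (k5_P_anti hf h' (by positivity) (by linarith))
  have e7 : Real.sqrt (t / ‖b‖ ^ 2) = Real.sqrt t / ‖b‖ := by
    rw [Real.sqrt_div ht.le, Real.sqrt_sq hb0.le]
  have e8 : 2 * R / Real.sqrt (t / ‖b‖ ^ 2) = 2 * R * ‖b‖ / Real.sqrt t := by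
    rw [e7]
    have : 0 < Real.sqrt t := Real.sqrt_pos.2 ht
    field_simp
  rw [e8] at e1
  have hm := k5_k_mass hB hR hq g
  have hW := k5_Wq_mul hq g (s := s / ‖b‖ ^ 2) (by positivity)
  refine (show |k5_A q f b h h' g - ac q g * k5_P f t h h'| ≤ _ from e1).trans ?_
  have hst' : 0 < Real.sqrt t := Real.sqrt_pos.2 ht
  have f1 : 2 * R * ‖b‖ / Real.sqrt t * ∫ v, |q v * q (v + g)| ≤
      2 * R * ‖b‖ / Real.sqrt t * (B ^ 2 * Real.pi * R ^ 2) :=
    mul_le_mul_of_nonneg_left hm (by positivity)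
  have f2 : (∫ v, |q v * q (v + g)|) *
      (η * V + (k5_P f (2 * s) h' h' - k5_P f (2 * t) h' h') / η) ≤
      B ^ 2 * Real.pi * R ^ 2 *
      (η * V + (k5_P f (2 * s) h' h' - k5_P f (2 * t) h' h') / η) :=
    mul_le_mul_of_nonneg_right hm (by positivity)
  calc _ ≤ (2 * B * Wq q (s / ‖b‖ ^ 2) +
          2 * R * ‖b‖ / Real.sqrt t * (B ^ 2 * Real.pi * R ^ 2)) * V +
        B ^ 2 * Real.pi * R ^ 2 *
          (η * V + (k5_P f (2 * s) h' h' - k5_P f (2 * t) h' h') / η) := by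
        refine add_le_add (mul_le_mul_of_nonneg_right (add_le_add hW f1) hV) f2
    _ = _ := by ring

/-! ### Integration over `g` -/

private theorem k5_A_meas {q f : ℂ → ℝ} (hq : Measurable q) (hf : Measurable f) (b c c' : ℂ) :
    Measurable fun g : ℂ => k5_A q f b (c * g) (c' * g) g := by
  have h1 : StronglyMeasurable fun p : ℂ × ℂ =>
      q p.2 * q (p.2 + p.1) * c4 f (c * p.1) (c' * p.1) (b * p.2) := by
    apply Measurable.stronglyMeasurable
    have h2 : Measurable fun p : ℂ × ℂ => (c * p.1, c' * p.1, b * p.2) := by fun_prop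
    have h3 : Measurable fun p : ℂ × ℂ => q p.2 * q (p.2 + p.1) := by fun_prop
    exact h3.mul ((k5_c4_meas hf).comp h2)
  exact h1.integral_prod_right'.measurable

private theorem k5_ac_meas {q : ℂ → ℝ} (hq : Measurable q) : Measurable (ac q) := by
  have h1 : StronglyMeasurable fun p : ℂ × ℂ => q p.2 * q (p.2 + p.1) := by
    apply Measurable.stronglyMeasurable
    fun_prop
  exact h1.integral_prod_right'.measurable

private theorem k5_k_zero {B R : ℝ} {q : ℂ → ℝ} (hq : Kr B R q) {g : ℂ} (hg : 2 * R < ‖g‖)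
    (v : ℂ) : q v * q (v + g) = 0 := by
  by_cases hv : R < ‖v‖
  · rw [hq.supp v hv, zero_mul]
  · rw [hq.supp (v + g), mul_zero]
    have h1 : ‖g‖ ≤ ‖v + g‖ + ‖v‖ := by
      have := norm_sub_le (v + g) v
      rwa [add_sub_cancel_left] at this
    linarith [not_lt.1 hv]

private theorem k5_A_zero {B R : ℝ} {q : ℂ → ℝ} (hq : Kr B R q) {g : ℂ} (hg : 2 * R < ‖g‖)
    (f : ℂ → ℝ) (b h h' : ℂ) : k5_A q f b h h' g = 0 := by
  unfold k5_A
  simp only [k5_k_zero hq hg, zero_mul, integral_zero]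

private theorem k5_ac_zero {B R : ℝ} {q : ℂ → ℝ} (hq : Kr B R q) {g : ℂ} (hg : 2 * R < ‖g‖) :
    ac q g = 0 := by
  unfold ac
  simp only [k5_k_zero hq hg, integral_zero]

private theorem k5_A_le {V : ℝ} {f : ℂ → ℝ} (hf : Fn V f) {B R : ℝ} {q : ℂ → ℝ} (hB : 0 ≤ B)
    (hR : 0 ≤ R) (hq : Kr B R q) (b h h' g : ℂ) :
    |k5_A q f b h h' g| ≤ B ^ 2 * Real.pi * R ^ 2 * V := by
  have hV := k5_V_nonneg hf
  calc |k5_A q f b h h' g| ≤ ∫ v, |q v * q (v + g) * c4 f h h' (b * v)| := abs_integral_le_integral_abs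
    _ ≤ ∫ v, |q v * q (v + g)| * V := by
        refine integral_mono_of_nonneg (Filter.Eventually.of_forall fun v => abs_nonneg _)
          ((k5_k_int hB hq g).abs.mul_const V) (Filter.Eventually.of_forall fun v => ?_)
        simp only
        rw [abs_mul, abs_of_nonneg (c4_bounds V f hf h h' (b * v)).1]
        exact mul_le_mul_of_nonneg_left (c4_bounds V f hf h h' (b * v)).2 (abs_nonneg _)
    _ ≤ B ^ 2 * Real.pi * R ^ 2 * V := by
        rw [integral_mul_const]
        exact mul_le_mul_of_nonneg_right (k5_k_mass hB hR hq g) hV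

private theorem k5_ac_le {B R : ℝ} {q : ℂ → ℝ} (hB : 0 ≤ B) (hR : 0 ≤ R) (hq : Kr B R q)
    (g : ℂ) : |ac q g| ≤ B ^ 2 * Real.pi * R ^ 2 :=
  abs_integral_le_integral_abs.trans (k5_k_mass hB hR hq g)

/-- bounded measurable functions that vanish off a ball are integrable -/
private theorem k5_int_of {u : ℂ → ℝ} (hu : Measurable u) {c r : ℝ} (hc : ∀ x, |u x| ≤ c)
    (hr : ∀ x, r < ‖x‖ → u x = 0) : Integrable u :=
  k5_q_int (B := c) (R := r) ⟨hu, hc, hr⟩

theorem step2 (a₁ a₂ : ℂ) (h2 : a₂ ≠ 0) (h12 : a₁ ≠ a₂) (B R V l s t η : ℝ) (q f : ℂ → ℝ)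
    (hB : 0 ≤ B) (hR : 0 ≤ R) (hq : Kr B R q) (hf : Fn V f) (hl : 0 < l) (hs : 0 < s)
    (hst : s ≤ t) (hη : 0 < η) :
    |(∫ g : ℂ, ∫ v : ℂ, q v * q (v + g) *
        c4 f ((l : ℂ) * a₁ * g) ((l : ℂ) * a₂ * g) ((l : ℂ) * (a₂ - a₁) * v)) -
      ∫ g : ℂ, ac q g * ∫ w : ℂ, gs t w * c4 f ((l : ℂ) * a₁ * g) ((l : ℂ) * a₂ * g) w| ≤
    4 * Real.pi * R ^ 2 * ((2 * B * Wq q (s / (l * ‖a₂ - a₁‖) ^ 2) +
        2 * R * (l * ‖a₂ - a₁‖) / Real.sqrt t * (B ^ 2 * Real.pi * R ^ 2)) * V +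
        B ^ 2 * Real.pi * R ^ 2 * (η * V)) +
      B ^ 2 * Real.pi * R ^ 2 / η * (Real.pi * Real.exp (4 * R ^ 2 * ‖a₂‖ ^ 2) / ‖a₂‖ ^ 2) *
        (Ub f (l ^ 2) (2 * s) - Ub f (l ^ 2) (2 * t)) := by
  have ht : 0 < t := hs.trans_le hst
  have hlc : (l : ℂ) ≠ 0 := by exact_mod_cast hl.ne'
  set b : ℂ := (l : ℂ) * (a₂ - a₁) with hbdef
  have hb : b ≠ 0 := mul_ne_zero hlc (sub_ne_zero.2 h12.symm)
  have hbn : ‖b‖ = l * ‖a₂ - a₁‖ := by
    rw [hbdef, norm_mul, Complex.norm_real, Real.norm_of_nonneg hl.le]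
  rw [← hbn]
  set c₁ : ℂ := (l : ℂ) * a₁ with hc1
  set c₂ : ℂ := (l : ℂ) * a₂ with hc2
  set K : ℝ := (2 * B * Wq q (s / ‖b‖ ^ 2) +
    2 * R * ‖b‖ / Real.sqrt t * (B ^ 2 * Real.pi * R ^ 2)) * V +
      B ^ 2 * Real.pi * R ^ 2 * (η * V) with hK
  have hA : Integrable fun g : ℂ => k5_A q f b (c₁ * g) (c₂ * g) g :=
    k5_int_of (k5_A_meas hq.meas hf.meas b c₁ c₂) (fun g => k5_A_le hf hB hR hq b _ _ g)
      (fun g hg => k5_A_zero hq hg f b _ _)
  have hPm : Measurable fun g : ℂ => k5_P f t (c₁ * g) (c₂ * g) := by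
    have h2 : Measurable fun g : ℂ => (c₁ * g, c₂ * g) := by fun_prop
    exact (k5_P_meas hf.meas t).comp h2
  have hD : Integrable fun g : ℂ => ac q g * k5_P f t (c₁ * g) (c₂ * g) := by
    refine k5_int_of (c := B ^ 2 * Real.pi * R ^ 2 * V) (r := 2 * R)
      ((k5_ac_meas hq.meas).mul hPm) (fun g => ?_) (fun g hg => ?_)
    · rw [abs_mul, abs_of_nonneg (k5_P_bounds hf ht _ _).1]
      exact mul_le_mul (k5_ac_le hB hR hq g) (k5_P_bounds hf ht _ _).2
        (k5_P_bounds hf ht _ _).1 (by positivity)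
    · rw [k5_ac_zero hq hg, zero_mul]
  change |(∫ g : ℂ, k5_A q f b (c₁ * g) (c₂ * g) g) -
    ∫ g : ℂ, ac q g * k5_P f t (c₁ * g) (c₂ * g)| ≤ _
  rw [← integral_sub hA hD]
  set Φ : ℂ → ℝ := fun h => k5_P f (2 * s) h h - k5_P f (2 * t) h h with hΦ
  have hΦ0 : ∀ h, 0 ≤ Φ h := fun h => sub_nonneg.2 (k5_P_anti hf h (by positivity) (by linarith))
  have hΦm : Measurable Φ := (k5_P_meas_diag hf.meas _).sub (k5_P_meas_diag hf.meas _)
  have hΦV : ∀ h, |Φ h| ≤ V := fun h => by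
    rw [abs_of_nonneg (hΦ0 h)]
    have e1 := (k5_P_bounds hf (t := 2 * s) (by positivity) h h).2
    have e2 := (k5_P_bounds hf (t := 2 * t) (by positivity) h h).1
    simp only [hΦ]
    linarith
  have hΦi : IntegrableOn (fun g : ℂ => Φ (c₂ * g)) (Metric.closedBall 0 (2 * R)) := by
    refine Measure.integrableOn_of_bounded (M := V) measure_closedBall_lt_top.ne
      (hΦm.comp (measurable_const.mul measurable_id)).aestronglyMeasurable ?_
    exact Filter.Eventually.of_forall fun x => hΦV _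
  have hpt : ∀ g : ℂ, |k5_A q f b (c₁ * g) (c₂ * g) g - ac q g * k5_P f t (c₁ * g) (c₂ * g)| ≤
      K + B ^ 2 * Real.pi * R ^ 2 / η * Φ (c₂ * g) :=
    fun g => k5_pt hf hB hR hq hb (c₁ * g) (c₂ * g) g hs hst hη
  have hball : ∫ g in Metric.closedBall (0 : ℂ) (2 * R), Φ (c₂ * g) ≤
      Real.pi * Real.exp (4 * R ^ 2 * ‖a₂‖ ^ 2) / ‖a₂‖ ^ 2 *
        (Ub f (l ^ 2) (2 * s) - Ub f (l ^ 2) (2 * t)) := by
    have hi1 := k5_gs_P_int hf (s := l ^ 2) (t := 2 * s) (by positivity) (by positivity)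
    have hi2 := k5_gs_P_int hf (s := l ^ 2) (t := 2 * t) (by positivity) (by positivity)
    have hi : Integrable fun h => gs (l ^ 2) h * Φ h := by
      refine (hi1.sub hi2).congr (Filter.Eventually.of_forall fun h => ?_)
      simp only [hΦ, Pi.sub_apply]
      ring
    have h3 := gs_ball (2 * R) l hl a₂ h2 Φ hΦ0 hi
    have h4 : ∫ h, gs (l ^ 2) h * Φ h = Ub f (l ^ 2) (2 * s) - Ub f (l ^ 2) (2 * t) := by
      rw [k5_Ub_eq, k5_Ub_eq, ← integral_sub hi1 hi2]
      congr 1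
      funext h
      simp only [hΦ]
      ring
    rw [h4, show (2 * R) ^ 2 = 4 * R ^ 2 by ring] at h3
    exact h3
  calc |∫ g : ℂ, (k5_A q f b (c₁ * g) (c₂ * g) g - ac q g * k5_P f t (c₁ * g) (c₂ * g))|
      ≤ ∫ g : ℂ, |k5_A q f b (c₁ * g) (c₂ * g) g - ac q g * k5_P f t (c₁ * g) (c₂ * g)| :=
        abs_integral_le_integral_abs
    _ = ∫ g in Metric.closedBall (0 : ℂ) (2 * R),
          |k5_A q f b (c₁ * g) (c₂ * g) g - ac q g * k5_P f t (c₁ * g) (c₂ * g)| := by
        symm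
        refine setIntegral_eq_integral_of_forall_compl_eq_zero fun g hg => ?_
        rw [mem_closedBall_zero_iff, not_le] at hg
        rw [k5_A_zero hq hg, k5_ac_zero hq hg, zero_mul, sub_zero, abs_zero]
    _ ≤ ∫ g in Metric.closedBall (0 : ℂ) (2 * R),
          (K + B ^ 2 * Real.pi * R ^ 2 / η * Φ (c₂ * g)) :=
        setIntegral_mono_on (hA.sub hD).abs.integrableOn
          ((integrableOn_const measure_closedBall_lt_top.ne).add (hΦi.const_mul _))
          measurableSet_closedBall (fun g _ => hpt g)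
    _ = 4 * Real.pi * R ^ 2 * K + B ^ 2 * Real.pi * R ^ 2 / η *
          ∫ g in Metric.closedBall (0 : ℂ) (2 * R), Φ (c₂ * g) := by
        have hcI : Integrable (fun _ : ℂ => K)
            (volume.restrict (Metric.closedBall (0 : ℂ) (2 * R))) :=
          integrableOn_const measure_closedBall_lt_top.ne
        rw [integral_add hcI (hΦi.const_mul _),
          setIntegral_const, k5_vol (by positivity), integral_const_mul, smul_eq_mul]
        ring
    _ ≤ 4 * Real.pi * R ^ 2 * K + B ^ 2 * Real.pi * R ^ 2 / η *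
          (Real.pi * Real.exp (4 * R ^ 2 * ‖a₂‖ ^ 2) / ‖a₂‖ ^ 2 *
            (Ub f (l ^ 2) (2 * s) - Ub f (l ^ 2) (2 * t))) := by gcongr
    _ = _ := by ring

end Pool.Agent.H16.Kn
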