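import Pool.Agent.H2.Kn.L2

/-!
# Correlations along a linear flow
-/

open MeasureTheory
open scoped RealInnerProductSpace

set_option linter.unusedSectionVars false

namespace Pool.Agent.H16.Kn

section

variable {X : Type} [NormedAddCommGroup X] [NormedSpace ℝ X] [MeasureSpace X] [BorelSpace X]
  [SecondCountableTopology X] [FiniteDimensional ℝ X]
  [(volume : Measure X).IsAddHaarMeasure]

theorem En_nonneg (L : ℂ →L[ℝ] X) (F : X → ℝ) (hF : MemLp F 2 volume) (t : ℝ) (ht : 0 < t) :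
    0 ≤ En L F t := Pool.Agent.H2.Kn.En_nonneg L F hF t ht

theorem En_le (L : ℂ →L[ℝ] X) (F : X → ℝ) (hF : MemLp F 2 volume) (t : ℝ) (ht : 0 < t) :
    En L F t ≤ ∫ x, F x ^ 2 := Pool.Agent.H2.Kn.En_le L F hF t ht

theorem En_anti (L : ℂ →L[ℝ] X) (F : X → ℝ) (hF : MemLp F 2 volume) (s t : ℝ) (hs : 0 < s)
    (hst : s ≤ t) : En L F t ≤ En L F s := Pool.Agent.H2.Kn.En_anti L F hF s t hs hst

/-- `k` may be replaced by a Gaussian of large variance in a region of constant energy -/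
theorem approx (L : ℂ →L[ℝ] X) (F' F : X → ℝ) (hF' : MemLp F' 2 volume) (hF : MemLp F 2 volume)
    (W : ℝ) (hW' : ∫ x, F' x ^ 2 ≤ W) (hW : ∫ x, F x ^ 2 ≤ W) (k : ℂ → ℝ) (hk : Integrable k)
    (R : ℝ) (hR : 0 ≤ R) (hkR : ∀ v, R < ‖v‖ → k v = 0) (s t η : ℝ) (hs : 0 < s) (hst : s ≤ t)
    (hη : 0 < η) :
    |(∫ v, k v * cr L F' F v) - (∫ v, k v) * ∫ v, gs t v * cr L F' F v| ≤
      (Wq k s + 2 * R / Real.sqrt t * ∫ v, |k v|) * W +
        (∫ v, |k v|) * (η * W + (En L F (2 * s) - En L F (2 * t)) / η) :=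
  Pool.Agent.H2.Kn.approx L F' F hF' hF W hW' hW k hk R hR hkR s t η hs hst hη

/-- a kernel of mean zero is small on a function of nearly constant energy -/
theorem sq_small (L : ℂ →L[ℝ] X) (F : X → ℝ) (hF : MemLp F 2 volume)
    (W : ℝ) (hW : ∫ x, F x ^ 2 ≤ W) (k : ℂ → ℝ) (hk : Integrable k) (h0 : ∫ v, k v = 0)
    (R : ℝ) (hR : 0 ≤ R) (hkR : ∀ v, R < ‖v‖ → k v = 0) (s t : ℝ) (hs : 0 < s) (hst : s ≤ t) :
    0 ≤ (∫ v, ∫ w, k v * k w * cr L F F (w - v)) ∧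
    (∫ v, ∫ w, k v * k w * cr L F F (w - v)) ≤
      2 * (Wq k s + 2 * R / Real.sqrt t * ∫ v, |k v|) ^ 2 * W +
        2 * (∫ v, |k v|) ^ 2 * (En L F (2 * s) - En L F (2 * t)) :=
  Pool.Agent.H2.Kn.sq_small L F hF W hW k hk h0 R hR hkR s t hs hst

end

end Pool.Agent.H16.Kn
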