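import Pool.Agent.H16.Kn.Gauss
import Pool.Agent.H16.Kn.Om
import Pool.Agent.H16.Kn.L2

/-!
# The main term as the square of an average
-/

open MeasureTheory
open scoped RealInnerProductSpace

namespace Pool.Agent.H16.Kn

namespace S3

instance haarProd : (volume : Measure (ℂ × ℂ)).IsAddHaarMeasure := by
  have h : ((volume : Measure ℂ).prod (volume : Measure ℂ)).IsAddHaarMeasure := inferInstance
  exact h

/-- The flow on the pairs. -/
noncomputable def fl (a₁ a₂ : ℂ) : ℂ →L[ℝ] ℂ × ℂ :=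
  (ContinuousLinearMap.mul ℝ ℂ a₁).prod (ContinuousLinearMap.mul ℝ ℂ (a₂ - a₁))

theorem fl_apply (a₁ a₂ h : ℂ) : fl a₁ a₂ h = (a₁ * h, (a₂ - a₁) * h) := rfl

/-- The vector of the pairs. -/
noncomputable def psi (f : ℂ → ℝ) (t : ℝ) (p : ℂ × ℂ) : ℝ :=
  Real.sqrt (gs t p.2) * (f p.1 * f (p.1 + p.2))

section

variable {V t : ℝ} {f : ℂ → ℝ}

theorem psi_meas (hf : Fn V f) : Measurable (psi f t) := by
  unfold psi
  apply Measurable.mul
  · exact (((gs_cont t).comp continuous_snd).sqrt).measurable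
  · exact (hf.meas.comp measurable_fst).mul (hf.meas.comp (measurable_fst.add measurable_snd))

theorem psi_nonneg (hf : Fn V f) (p : ℂ × ℂ) : 0 ≤ psi f t p :=
  mul_nonneg (Real.sqrt_nonneg _) (mul_nonneg (hf.nonneg _) (hf.nonneg _))

theorem psi_sq_le (hf : Fn V f) (ht : 0 < t) (p : ℂ × ℂ) : psi f t p ^ 2 ≤ f p.1 * gs t p.2 := by
  unfold psi
  rw [mul_pow, Real.sq_sqrt (gs_nonneg t ht _), mul_comm]
  apply mul_le_mul_of_nonneg_right _ (gs_nonneg t ht _)
  have h1 := hf.nonneg p.1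
  have h2 := hf.le_one p.1
  have h3 := hf.nonneg (p.1 + p.2)
  have h4 := hf.le_one (p.1 + p.2)
  have h5 : f p.1 * f (p.1 + p.2) ≤ f p.1 := by nlinarith
  have h6 : 0 ≤ f p.1 * f (p.1 + p.2) := mul_nonneg h1 h3
  nlinarith

theorem fg_int (hf : Fn V f) (ht : 0 < t) : Integrable (fun p : ℂ × ℂ => f p.1 * gs t p.2) :=
  hf.int.mul_prod (gs_int t ht)

theorem psi_memLp (hf : Fn V f) (ht : 0 < t) : MemLp (psi f t) 2 volume := by
  rw [memLp_two_iff_integrable_sq (psi_meas hf).aestronglyMeasurable]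
  apply (fg_int hf ht).mono' ((psi_meas hf).pow_const 2).aestronglyMeasurable
  filter_upwards with p
  rw [Real.norm_of_nonneg (sq_nonneg _)]
  exact psi_sq_le hf ht p

theorem psi_int (hf : Fn V f) (ht : 0 < t) : ∫ p, psi f t p ^ 2 ≤ V := by
  have h1 : ∫ p, psi f t p ^ 2 ≤ ∫ p : ℂ × ℂ, f p.1 * gs t p.2 :=
    integral_mono (psi_memLp hf ht).integrable_sq (fg_int hf ht) (fun p => psi_sq_le hf ht p)
  have h2 : ∫ p : ℂ × ℂ, f p.1 * gs t p.2 = (∫ x, f x) * ∫ y, gs t y :=
    integral_prod_mul f (gs t)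
  rw [h2, gs_one t ht, mul_one] at h1
  exact h1.trans hf.mass

theorem c4_meas (hf : Fn V f) (h h' : ℂ) : Measurable (c4 f h h') := by
  have hm : StronglyMeasurable (fun p : ℂ × ℂ => f p.2 * f (p.2 + h) *
      (f (p.2 + p.1) * f (p.2 + p.1 + h'))) := by
    apply Measurable.stronglyMeasurable
    have m := hf.meas
    fun_prop
  exact hm.integral_prod_right'.measurable

theorem c4_meas2 (hf : Fn V f) (a₁ a₂ : ℂ) :
    Measurable (fun p : ℂ × ℂ => c4 f (a₁ * p.1) (a₂ * p.1) p.2) := by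
  have hm : StronglyMeasurable (fun p : (ℂ × ℂ) × ℂ => f p.2 * f (p.2 + a₁ * p.1.1) *
      (f (p.2 + p.1.2) * f (p.2 + p.1.2 + a₂ * p.1.1))) := by
    apply Measurable.stronglyMeasurable
    have m := hf.meas
    fun_prop
  exact hm.integral_prod_right'.measurable

theorem c4_b (hf : Fn V f) (h h' w : ℂ) : |c4 f h h' w| ≤ V := by
  have h0 : ∀ y, 0 ≤ f y * f (y + h) * (f (y + w) * f (y + w + h')) := fun y =>
    mul_nonneg (mul_nonneg (hf.nonneg _) (hf.nonneg _)) (mul_nonneg (hf.nonneg _) (hf.nonneg _))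
  have h1 : ∀ y, f y * f (y + h) * (f (y + w) * f (y + w + h')) ≤ f y := by
    intro y
    have a1 := hf.nonneg y
    have a2 := hf.nonneg (y + h)
    have a3 := hf.nonneg (y + w)
    have a4 := hf.nonneg (y + w + h')
    have b2 := hf.le_one (y + h)
    have b3 := hf.le_one (y + w)
    have b4 := hf.le_one (y + w + h')
    have c1 : f (y + w) * f (y + w + h') ≤ 1 := mul_le_one₀ b3 a4 b4
    have c2 : f y * f (y + h) ≤ f y := by nlinarith
    calc f y * f (y + h) * (f (y + w) * f (y + w + h')) ≤ f y * f (y + h) * 1 :=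
          mul_le_mul_of_nonneg_left c1 (mul_nonneg a1 a2)
      _ ≤ f y := by rw [mul_one]; exact c2
  unfold c4
  rw [abs_of_nonneg (integral_nonneg h0)]
  refine (integral_mono_of_nonneg (Filter.Eventually.of_forall h0) hf.int
    (Filter.Eventually.of_forall h1)).trans hf.mass

theorem V_nonneg (hf : Fn V f) : 0 ≤ V := (abs_nonneg _).trans (c4_b hf 0 0 0)

/-- The Gaussian average of the four point correlation. -/
noncomputable def mm (f : ℂ → ℝ) (a₁ a₂ : ℂ) (t : ℝ) (h : ℂ) : ℝ :=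
  ∫ w : ℂ, gs t w * c4 f (a₁ * h) (a₂ * h) w

theorem mm_meas (hf : Fn V f) (a₁ a₂ : ℂ) : Measurable (mm f a₁ a₂ t) := by
  have hm : StronglyMeasurable (fun p : ℂ × ℂ => gs t p.2 * c4 f (a₁ * p.1) (a₂ * p.1) p.2) := by
    apply Measurable.stronglyMeasurable
    exact ((gs_cont t).measurable.comp measurable_snd).mul (c4_meas2 hf a₁ a₂)
  exact hm.integral_prod_right'.measurable

theorem gc_int (hf : Fn V f) {k : ℂ → ℝ} (hk : Integrable k) (h h' : ℂ) :
    Integrable (fun w => k w * c4 f h h' w) := by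
  apply Integrable.mono' (hk.norm.mul_const V)
  · exact hk.1.mul (c4_meas hf h h').aestronglyMeasurable
  · filter_upwards with w
    rw [norm_mul]
    exact mul_le_mul_of_nonneg_left (c4_b hf h h' w) (norm_nonneg _)

theorem mm_b (hf : Fn V f) (ht : 0 < t) (a₁ a₂ h : ℂ) : |mm f a₁ a₂ t h| ≤ V := by
  unfold mm
  calc |∫ w : ℂ, gs t w * c4 f (a₁ * h) (a₂ * h) w|
      ≤ ∫ w : ℂ, |gs t w * c4 f (a₁ * h) (a₂ * h) w| := abs_integral_le_integral_abs
    _ ≤ ∫ w, gs t w * V := by
        apply integral_mono (gc_int hf (gs_int t ht) _ _).abs ((gs_int t ht).mul_const V)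
        intro w
        show |gs t w * c4 f (a₁ * h) (a₂ * h) w| ≤ gs t w * V
        rw [abs_mul, abs_of_nonneg (gs_nonneg t ht w)]
        exact mul_le_mul_of_nonneg_left (c4_b hf _ _ w) (gs_nonneg t ht w)
    _ = V := by rw [integral_mul_const, gs_one t ht, one_mul]

/-- The correlation of the vector of the pairs. -/
theorem cr_psi (hf : Fn V f) (ht : 0 < t) (a₁ a₂ h : ℂ) :
    cr (fl a₁ a₂) (psi f t) (psi f t) h =
      ∫ w, Real.sqrt (gs t w) * Real.sqrt (gs t (w + (a₂ - a₁) * h)) *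
        c4 f (a₁ * h) (a₂ * h) w := by
  have hI : Integrable (fun p : ℂ × ℂ => psi f t p * psi f t (p + fl a₁ a₂ h))
      (volume.prod volume) := by
    have h1 := psi_memLp hf ht
    exact h1.integrable_mul (h1.comp_measurePreserving
      (measurePreserving_add_right volume (fl a₁ a₂ h)))
  have e1 : cr (fl a₁ a₂) (psi f t) (psi f t) h =
      ∫ w, ∫ y, psi f t (y, w) * psi f t ((y, w) + fl a₁ a₂ h) :=
    integral_prod_symm _ hI
  rw [e1]
  congr 1; funext w
  unfold c4
  rw [← integral_const_mul]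
  congr 1; funext y
  rw [fl_apply]
  simp only [psi, Prod.mk_add_mk]
  have e2 : y + a₁ * h + (w + (a₂ - a₁) * h) = y + w + a₂ * h := by ring
  rw [e2]
  ring

theorem mm_cr (hf : Fn V f) (ht : 0 < t) (a₁ a₂ h : ℂ) :
    |mm f a₁ a₂ t h - cr (fl a₁ a₂) (psi f t) (psi f t) h| ≤
      V * (2 * (‖a₂ - a₁‖ * ‖h‖) / Real.sqrt t) := by
  have hV := V_nonneg hf
  rw [cr_psi hf ht]
  unfold mm
  have i1 := gc_int hf (gs_int t ht) (a₁ * h) (a₂ * h)
  have i2 := gc_int hf (sqrt_int t ht ((a₂ - a₁) * h)) (a₁ * h) (a₂ * h)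
  have i3 : Integrable (fun w => |Real.sqrt (gs t w) * Real.sqrt (gs t (w + (a₂ - a₁) * h)) -
      gs t w| * V) := ((sqrt_int t ht ((a₂ - a₁) * h)).sub (gs_int t ht)).abs.mul_const V
  rw [← integral_sub i1 i2]
  calc |∫ w, (gs t w * c4 f (a₁ * h) (a₂ * h) w - Real.sqrt (gs t w) *
        Real.sqrt (gs t (w + (a₂ - a₁) * h)) * c4 f (a₁ * h) (a₂ * h) w)|
      ≤ ∫ w, |gs t w * c4 f (a₁ * h) (a₂ * h) w - Real.sqrt (gs t w) *
        Real.sqrt (gs t (w + (a₂ - a₁) * h)) * c4 f (a₁ * h) (a₂ * h) w| :=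
        abs_integral_le_integral_abs
    _ ≤ ∫ w, |Real.sqrt (gs t w) * Real.sqrt (gs t (w + (a₂ - a₁) * h)) - gs t w| * V := by
        apply integral_mono (i1.sub i2).abs i3
        intro w
        show |gs t w * c4 f (a₁ * h) (a₂ * h) w - Real.sqrt (gs t w) *
          Real.sqrt (gs t (w + (a₂ - a₁) * h)) * c4 f (a₁ * h) (a₂ * h) w| ≤
          |Real.sqrt (gs t w) * Real.sqrt (gs t (w + (a₂ - a₁) * h)) - gs t w| * V
        rw [← sub_mul, abs_mul, abs_sub_comm]
        exact mul_le_mul_of_nonneg_left (c4_b hf _ _ w) (abs_nonneg _)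
    _ = (∫ w, |Real.sqrt (gs t w) * Real.sqrt (gs t (w + (a₂ - a₁) * h)) - gs t w|) * V :=
        integral_mul_const _ _
    _ ≤ (2 * ‖(a₂ - a₁) * h‖ / Real.sqrt t) * V :=
        mul_le_mul_of_nonneg_right (gs_sqrt t ht _) hV
    _ = V * (2 * (‖a₂ - a₁‖ * ‖h‖) / Real.sqrt t) := by rw [norm_mul]; ring

theorem cr_meas (hf : Fn V f) (L : ℂ →L[ℝ] ℂ × ℂ) :
    Measurable (cr L (psi f t) (psi f t)) := by
  have m := psi_meas (t := t) hf
  have hL := L.continuous.measurable
  have hm : StronglyMeasurable (fun p : ℂ × (ℂ × ℂ) => psi f t p.2 * psi f t (p.2 + L p.1)) := by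
    apply Measurable.stronglyMeasurable
    exact (m.comp measurable_snd).mul (m.comp (measurable_snd.add (hL.comp measurable_fst)))
  exact hm.integral_prod_right'.measurable

theorem cr_b (hf : Fn V f) (ht : 0 < t) (L : ℂ →L[ℝ] ℂ × ℂ) (h : ℂ) :
    |cr L (psi f t) (psi f t) h| ≤ V := by
  have h1 := psi_memLp hf ht
  have h2 : MemLp (fun p => psi f t (p + L h)) 2 volume :=
    h1.comp_measurePreserving (measurePreserving_add_right volume (L h))
  have i1 := h1.integrable_sq
  have i2 := h2.integrable_sq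
  have e2 : ∫ p, psi f t (p + L h) ^ 2 = ∫ p, psi f t p ^ 2 :=
    integral_add_right_eq_self (fun p => psi f t p ^ 2) (L h)
  have hV := psi_int hf ht
  unfold cr
  calc |∫ p, psi f t p * psi f t (p + L h)| ≤ ∫ p, |psi f t p * psi f t (p + L h)| :=
        abs_integral_le_integral_abs
    _ ≤ ∫ p, (psi f t p ^ 2 / 2 + psi f t (p + L h) ^ 2 / 2) := by
        apply integral_mono (h1.integrable_mul h2).abs ((i1.div_const 2).add (i2.div_const 2))
        intro p
        show |psi f t p * psi f t (p + L h)| ≤ psi f t p ^ 2 / 2 + psi f t (p + L h) ^ 2 / 2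
        rw [abs_mul]
        nlinarith [sq_nonneg (|psi f t p| - |psi f t (p + L h)|), sq_abs (psi f t p),
          sq_abs (psi f t (p + L h))]
    _ = (∫ p, psi f t p ^ 2) := by
        rw [integral_add (i1.div_const 2) (i2.div_const 2), integral_div, integral_div, e2]
        ring
    _ ≤ V := hV

end

section

variable {B R : ℝ} {q : ℂ → ℝ}

theorem q_int (hq : Kr B R q) : Integrable q := by
  have h1 : Integrable ((Metric.closedBall (0 : ℂ) R).indicator (fun _ => B)) := by
    rw [integrable_indicator_iff Metric.isClosed_closedBall.measurableSet]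
    exact integrableOn_const (by exact (isCompact_closedBall (0 : ℂ) R).measure_lt_top.ne)
  apply h1.mono' hq.meas.aestronglyMeasurable
  filter_upwards with v
  rcases le_or_gt ‖v‖ R with h | h
  · rw [Set.indicator_of_mem (by simpa using h)]
    exact hq.le v
  · rw [hq.supp v h, norm_zero, Set.indicator_of_notMem (by simpa using h)]

theorem ball_real (hR : 0 ≤ R) : (volume : Measure ℂ).real (Metric.closedBall (0 : ℂ) R) =
    Real.pi * R ^ 2 := by
  rw [measureReal_def, Complex.volume_closedBall]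
  rw [ENNReal.toReal_mul, ENNReal.toReal_pow, ENNReal.toReal_ofReal hR]
  simp [mul_comm]

/-- An integral dominated by a constant on a ball. -/
theorem int_ball_le (hR : 0 ≤ R) (K : ℝ) (G : ℂ → ℝ) (hG : ∀ v, ‖v‖ ≤ R → |G v| ≤ K)
    (hG0 : ∀ v, R < ‖v‖ → G v = 0) : |∫ v, G v| ≤ K * (Real.pi * R ^ 2) := by
  have h1 : Integrable ((Metric.closedBall (0 : ℂ) R).indicator (fun _ => K)) := by
    rw [integrable_indicator_iff Metric.isClosed_closedBall.measurableSet]
    exact integrableOn_const (by exact (isCompact_closedBall (0 : ℂ) R).measure_lt_top.ne)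
  have h2 : ‖∫ v, G v‖ ≤ ∫ v, (Metric.closedBall (0 : ℂ) R).indicator (fun _ => K) v := by
    apply norm_integral_le_of_norm_le h1
    filter_upwards with v
    rcases le_or_gt ‖v‖ R with h | h
    · rw [Set.indicator_of_mem (by simpa using h)]
      exact hG v h
    · rw [hG0 v h, norm_zero, Set.indicator_of_notMem (by simpa using h)]
  rw [integral_indicator Metric.isClosed_closedBall.measurableSet, setIntegral_const,
    ball_real hR] at h2
  rw [← Real.norm_eq_abs]
  refine h2.trans (le_of_eq ?_)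
  rw [smul_eq_mul]
  ring

theorem q_abs (hR : 0 ≤ R) (hq : Kr B R q) : ∫ v, |q v| ≤ B * Real.pi * R ^ 2 := by
  have h := int_ball_le hR B (fun v => |q v|) (fun v _ => by rw [abs_abs]; exact hq.le v)
    (fun v hv => by rw [hq.supp v hv, abs_zero])
  rw [abs_of_nonneg (integral_nonneg (fun _ => abs_nonneg _))] at h
  linarith

theorem ac_b (hB : 0 ≤ B) (hR : 0 ≤ R) (hq : Kr B R q) (g : ℂ) :
    |ac q g| ≤ B ^ 2 * Real.pi * R ^ 2 := by
  have h := int_ball_le hR (B * B) (fun v => q v * q (v + g))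
    (fun v _ => by
      rw [abs_mul]
      exact mul_le_mul (hq.le v) (hq.le _) (abs_nonneg _) hB)
    (fun v hv => by rw [hq.supp v hv, zero_mul])
  unfold ac
  linarith

theorem ac_zero (hq : Kr B R q) (g : ℂ) (hg : 2 * R < ‖g‖) : ac q g = 0 := by
  unfold ac
  have : ∀ v, q v * q (v + g) = 0 := by
    intro v
    rcases le_or_gt ‖v‖ R with h | h
    · have h2 : R < ‖v + g‖ := by
        have h3 : ‖g‖ ≤ ‖v + g‖ + ‖v‖ := by
          have := norm_sub_le (v + g) v
          rwa [add_sub_cancel_left] at this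
        linarith
      rw [hq.supp _ h2, mul_zero]
    · rw [hq.supp v h, zero_mul]
  simp only [this, integral_zero]

theorem ac_meas (hq : Kr B R q) : Measurable (ac q) := by
  have hm : StronglyMeasurable (fun p : ℂ × ℂ => q p.2 * q (p.2 + p.1)) := by
    apply Measurable.stronglyMeasurable
    exact (hq.meas.comp measurable_snd).mul (hq.meas.comp (measurable_snd.add measurable_fst))
  exact hm.integral_prod_right'.measurable

theorem ac_mul_int (hB : 0 ≤ B) (hR : 0 ≤ R) (hq : Kr B R q) {c : ℂ → ℝ} (hc : Measurable c)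
    {V : ℝ} (hcV : ∀ g, |c g| ≤ V) : Integrable (fun g => ac q g * c g) := by
  have hR2 : 0 ≤ 2 * R := by positivity
  have h1 : Integrable ((Metric.closedBall (0 : ℂ) (2 * R)).indicator
      (fun _ => B ^ 2 * Real.pi * R ^ 2 * V)) := by
    rw [integrable_indicator_iff Metric.isClosed_closedBall.measurableSet]
    exact integrableOn_const (by exact (isCompact_closedBall (0 : ℂ) _).measure_lt_top.ne)
  apply h1.mono' ((ac_meas hq).mul hc).aestronglyMeasurable
  filter_upwards with g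
  rcases le_or_gt ‖g‖ (2 * R) with h | h
  · rw [Set.indicator_of_mem (by simpa using h)]
    show |ac q g * c g| ≤ _
    rw [abs_mul]
    exact mul_le_mul (ac_b hB hR hq g) (hcV g) (abs_nonneg _) ((abs_nonneg _).trans
      (ac_b hB hR hq g))
  · show |ac q g * c g| ≤ _
    rw [ac_zero hq g h, zero_mul, abs_zero, Set.indicator_of_notMem (by simpa using h)]

/-- The autocorrelation against a function of the difference. -/
theorem ac_int (hq : Kr B R q) {c : ℂ → ℝ} (hc : Measurable c)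
    {V : ℝ} (hcV : ∀ g, |c g| ≤ V) :
    ∫ g, ac q g * c g = ∫ v, ∫ w, q v * q w * c (w - v) := by
  have hqi := q_int hq
  have hI : Integrable (fun p : ℂ × ℂ => q p.1 * q p.2 * c (p.2 - p.1))
      (volume.prod volume) := by
    apply Integrable.mono' ((hqi.mul_prod hqi).norm.mul_const V)
    · exact ((hq.meas.comp measurable_fst).mul (hq.meas.comp measurable_snd)).mul
        (hc.comp (measurable_snd.sub measurable_fst)) |>.aestronglyMeasurable
    · filter_upwards with p
      rw [norm_mul]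
      exact mul_le_mul_of_nonneg_left (hcV _) (norm_nonneg _)
  have hI2 : Integrable (fun p : ℂ × ℂ => q p.1 * q (p.1 + p.2) * c p.2)
      (volume.prod volume) := by
    have h := (measurePreserving_prod_add (volume : Measure ℂ) (volume : Measure ℂ))
    have h2 := h.integrable_comp_of_integrable hI
    refine h2.congr ?_
    filter_upwards with p
    simp only [Function.comp]
    rw [add_sub_cancel_left]
  have e1 : ∀ g, ac q g * c g = ∫ v, q v * q (v + g) * c g := by
    intro g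
    unfold ac
    rw [integral_mul_const]
  simp only [e1]
  have hI3 : Integrable (Function.uncurry fun g v => q v * q (v + g) * c g)
      (volume.prod volume) := hI2.swap
  rw [integral_integral_swap hI3]
  congr 1; funext v
  rw [← integral_sub_right_eq_self (fun g => q v * q (v + g) * c g) v]
  congr 1; funext w
  rw [add_sub_cancel]

end

end S3

open S3

theorem step3 (a₁ a₂ : ℂ) (V : ℝ) (f : ℂ → ℝ) (hf : Fn V f) (t : ℝ) (ht : 0 < t) :
    ∃ E : ℝ → ℝ, (∀ r, 0 < r → 0 ≤ E r ∧ E r ≤ V) ∧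
      (∀ r r', 0 < r → r ≤ r' → E r' ≤ E r) ∧
      ∀ (B R l s' t' : ℝ) (q : ℂ → ℝ), 0 ≤ B → 0 ≤ R → Kr B R q → ∫ v, q v = 0 → 0 < l →
        0 < s' → s' ≤ t' →
        |∫ g : ℂ, ac q g * ∫ w : ℂ, gs t w * c4 f ((l : ℂ) * a₁ * g) ((l : ℂ) * a₂ * g) w| ≤
          16 * Real.pi * R ^ 3 * (B ^ 2 * Real.pi * R ^ 2) * ‖a₂ - a₁‖ * (l / Real.sqrt t) * V +
          2 * (Wq q (s' / l ^ 2) + 2 * R * l / Real.sqrt t' * (B * Real.pi * R ^ 2)) ^ 2 * V +
          2 * (B * Real.pi * R ^ 2) ^ 2 * (E (2 * s') - E (2 * t')) := by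
  have hV := V_nonneg hf
  have hpL := psi_memLp hf ht
  have hpV := psi_int hf ht
  refine ⟨En (fl a₁ a₂) (psi f t), fun r hr => ⟨En_nonneg _ _ hpL r hr,
    (En_le _ _ hpL r hr).trans hpV⟩, fun r r' hr hrr => En_anti _ _ hpL r r' hr hrr, ?_⟩
  intro B R l s' t' q hB hR hq h0 hl hs' hst'
  have ht' := hs'.trans_le hst'
  have hlc : (l : ℂ) ≠ 0 := by exact_mod_cast hl.ne'
  have hln : ‖(l : ℂ)‖ = l := by rw [Complex.norm_real, Real.norm_of_nonneg hl.le]
  -- the correlation at scale `l`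
  set c : ℂ → ℝ := fun g => cr (fl a₁ a₂) (psi f t) (psi f t) ((l : ℂ) * g) with hc
  set m : ℂ → ℝ := fun g => mm f a₁ a₂ t ((l : ℂ) * g) with hm
  have hcm : Measurable c := (cr_meas hf _).comp (measurable_const.mul measurable_id)
  have hmm : Measurable m := (mm_meas hf a₁ a₂).comp (measurable_const.mul measurable_id)
  have hcV : ∀ g, |c g| ≤ V := fun g => cr_b hf ht _ _
  have hmV : ∀ g, |m g| ≤ V := fun g => mm_b hf ht _ _ _
  have e0 : ∀ g, (∫ w : ℂ, gs t w * c4 f ((l : ℂ) * a₁ * g) ((l : ℂ) * a₂ * g) w) = m g := by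
    intro g
    simp only [hm, mm]
    have r1 : (l : ℂ) * a₁ * g = a₁ * ((l : ℂ) * g) := by ring
    have r2 : (l : ℂ) * a₂ * g = a₂ * ((l : ℂ) * g) := by ring
    rw [r1, r2]
  simp only [e0]
  have hic := ac_mul_int hB hR hq hcm hcV
  have him := ac_mul_int hB hR hq hmm hmV
  -- the difference
  have hd : |(∫ g, ac q g * m g) - ∫ g, ac q g * c g| ≤
      16 * Real.pi * R ^ 3 * (B ^ 2 * Real.pi * R ^ 2) * ‖a₂ - a₁‖ * (l / Real.sqrt t) * V := by
    rw [← integral_sub him hic]
    have h1 := int_ball_le (R := 2 * R) (by positivity)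
      ((B ^ 2 * Real.pi * R ^ 2) * (V * (2 * (‖a₂ - a₁‖ * (l * (2 * R))) / Real.sqrt t)))
      (fun g => ac q g * m g - ac q g * c g) (fun g hg => by
        rw [← mul_sub, abs_mul]
        apply mul_le_mul (ac_b hB hR hq g) _ (abs_nonneg _) ((abs_nonneg _).trans
          (ac_b hB hR hq g))
        refine (mm_cr hf ht a₁ a₂ ((l : ℂ) * g)).trans ?_
        rw [norm_mul, hln]
        gcongr) (fun g hg => by rw [ac_zero hq g hg]; ring)
    refine h1.trans (le_of_eq ?_)
    ring
  -- the square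
  let L' : ℂ →L[ℝ] ℂ × ℂ := (fl a₁ a₂).comp (ContinuousLinearMap.mul ℝ ℂ (l : ℂ))
  have hL' : ∀ v, cr L' (psi f t) (psi f t) v = c v := fun v => rfl
  have hEn : ∀ r, 0 < r → En L' (psi f t) (r / l ^ 2) = En (fl a₁ a₂) (psi f t) r := by
    intro r hr
    unfold En
    have h := gs_scale (r / l ^ 2) (by positivity) (l : ℂ) hlc
      (cr (fl a₁ a₂) (psi f t) (psi f t))
    rw [hln, mul_div_cancel₀ _ (by positivity : l ^ 2 ≠ 0)] at h
    exact h
  have hsq := sq_small L' (psi f t) hpL V hpV q (q_int hq) h0 R hR hq.supp (s' / l ^ 2)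
    (t' / l ^ 2) (by positivity) (by gcongr)
  have e5 : (∫ v, ∫ w, q v * q w * cr L' (psi f t) (psi f t) (w - v)) = ∫ g, ac q g * c g := by
    rw [ac_int hq hcm hcV]
    rfl
  rw [e5, ← mul_div_assoc, ← mul_div_assoc, hEn _ (by positivity), hEn _ (by positivity)] at hsq
  have hq1 := q_abs hR hq
  have hq0 : 0 ≤ ∫ v, |q v| := integral_nonneg (fun _ => abs_nonneg _)
  have hW0 : 0 ≤ Wq q (s' / l ^ 2) := Wq_nonneg q _ (by positivity)
  have hE0 : 0 ≤ En (fl a₁ a₂) (psi f t) (2 * s') - En (fl a₁ a₂) (psi f t) (2 * t') := by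
    have := En_anti (fl a₁ a₂) (psi f t) hpL (2 * s') (2 * t') (by positivity) (by linarith)
    linarith
  have hsqrt : 2 * R / Real.sqrt (t' / l ^ 2) = 2 * R * l / Real.sqrt t' := by
    rw [Real.sqrt_div ht'.le, Real.sqrt_sq hl.le]
    field_simp
  have h6 : |∫ g, ac q g * c g| ≤
      2 * (Wq q (s' / l ^ 2) + 2 * R * l / Real.sqrt t' * (B * Real.pi * R ^ 2)) ^ 2 * V +
          2 * (B * Real.pi * R ^ 2) ^ 2 *
            (En (fl a₁ a₂) (psi f t) (2 * s') - En (fl a₁ a₂) (psi f t) (2 * t')) := by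
    rw [abs_of_nonneg hsq.1]
    refine hsq.2.trans ?_
    rw [hsqrt]
    gcongr
  have h7 : |∫ g, ac q g * m g| ≤ |(∫ g, ac q g * m g) - ∫ g, ac q g * c g| +
      |∫ g, ac q g * c g| := by
    have := abs_add_le ((∫ g, ac q g * m g) - ∫ g, ac q g * c g) (∫ g, ac q g * c g)
    rwa [sub_add_cancel] at this
  linarith

end Pool.Agent.H16.Kn
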