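import Pool.Agent.H16.Kn.CS
import Pool.Agent.H16.Kn.Step2
import Pool.Agent.H16.Kn.Step3
import Pool.Agent.H16.Kn.Om

/-!
# Kernels at comparable scales: the pigeonhole
-/

open MeasureTheory
open scoped RealInnerProductSpace

namespace Pool.Agent.H16.Kn

/-- Pigeonhole for a decreasing sequence. -/
theorem kpg_one (u : ℕ → ℝ) (V : ℝ) (h0 : ∀ j, 0 ≤ u j) (hV : u 0 ≤ V) (M : ℕ) (hM : 0 < M) :
    ∃ m < M, u m - u (m + 1) ≤ V / M := by
  by_contra hcon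
  push Not at hcon
  have h1 : ∑ m ∈ Finset.range M, (u m - u (m + 1)) = u 0 - u M := by
    rw [Finset.sum_range_sub']
  have h2 : ∑ m ∈ Finset.range M, V / M < ∑ m ∈ Finset.range M, (u m - u (m + 1)) :=
    Finset.sum_lt_sum_of_nonempty ⟨0, Finset.mem_range.2 hM⟩
      (fun m hm => hcon m (Finset.mem_range.1 hm))
  rw [h1, Finset.sum_const, Finset.card_range, nsmul_eq_mul] at h2
  have hM' : (0:ℝ) < M := by exact_mod_cast hM
  rw [mul_div_cancel₀ _ hM'.ne'] at h2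
  linarith [h0 M]

/-- Pigeonhole for steps of length two. -/
theorem kpg_two (u : ℕ → ℝ) (V : ℝ) (h0 : ∀ j, 0 ≤ u j) (hV : ∀ j, u j ≤ V) (j₀ N : ℕ)
    (hN : 0 < N) : ∃ m < N, u (j₀ + m) - u (j₀ + m + 2) ≤ 2 * V / N := by
  by_contra hcon
  push Not at hcon
  have h1 : ∑ m ∈ Finset.range N, (u (j₀ + m) - u (j₀ + m + 2))
      = (u j₀ + u (j₀ + 1)) - (u (j₀ + N) + u (j₀ + N + 1)) := by
    have := Finset.sum_range_sub' (fun m => u (j₀ + m) + u (j₀ + m + 1)) N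
    simp only [add_zero] at this
    rw [← this]
    refine Finset.sum_congr rfl fun m _ => ?_
    rw [show j₀ + (m + 1) = j₀ + m + 1 by ring, show j₀ + m + 1 + 1 = j₀ + m + 2 by ring]
    ring
  have h2 : ∑ m ∈ Finset.range N, 2 * V / N
      < ∑ m ∈ Finset.range N, (u (j₀ + m) - u (j₀ + m + 2)) :=
    Finset.sum_lt_sum_of_nonempty ⟨0, Finset.mem_range.2 hN⟩
      (fun m hm => hcon m (Finset.mem_range.1 hm))
  rw [h1, Finset.sum_const, Finset.card_range, nsmul_eq_mul] at h2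
  have hN' : (0:ℝ) < N := by exact_mod_cast hN
  rw [mul_div_cancel₀ _ hN'.ne'] at h2
  linarith [h0 (j₀ + N), h0 (j₀ + N + 1), hV j₀, hV (j₀ + 1)]

theorem kpg_int {B R : ℝ} {q : ℂ → ℝ} (hq : Kr B R q) : Integrable q := by
  have hb : Integrable ((Metric.closedBall (0:ℂ) R).indicator (fun _ => (B:ℝ)))
      (volume : Measure ℂ) := by
    rw [integrable_indicator_iff Metric.isClosed_closedBall.measurableSet]
    exact integrableOn_const (by
      exact (isCompact_closedBall (0:ℂ) R).measure_lt_top.ne)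
  refine hb.mono' hq.meas.aestronglyMeasurable (Filter.Eventually.of_forall fun v => ?_)
  rw [Real.norm_eq_abs]
  by_cases hv : v ∈ Metric.closedBall (0:ℂ) R
  · rw [Set.indicator_of_mem hv]
    exact hq.le v
  · rw [Set.indicator_of_notMem hv]
    have : R < ‖v‖ := by simpa using hv
    rw [hq.supp v this, abs_zero]

/-- The estimate at one good index. -/
theorem kpg_main (a₁ a₂ : ℂ) (h2 : a₂ ≠ 0) (h12 : a₁ ≠ a₂) (B R : ℝ) (hB : 0 ≤ B) (hR : 0 ≤ R) :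
    ∃ K : ℝ, 1 ≤ K ∧ ∀ (V e κ : ℝ) (q f : ℂ → ℝ) (l lm lp lt : ℝ) (E : ℝ → ℝ),
      Kr B R q → Fn V f → ∫ v, q v = 0 → 0 < V → 0 < e → e ≤ 1 / 8 → 0 < κ → κ ≤ e / K →
      0 < lm → lm ≤ l → l ≤ κ * lp → lp ≤ lt →
      Wq q (lm ^ 2 / 2 / (l * ‖a₂ - a₁‖) ^ 2) ≤ e / K → 0 ≤ Wq q (lm ^ 2 / 2 / l ^ 2) →
      Wq q (lm ^ 2 / 2 / l ^ 2) ≤ e / K →
      Ub f (l ^ 2) (lm ^ 2) - Ub f (l ^ 2) (lt ^ 2) ≤ e ^ 2 / K ^ 2 * V →
      E (lm ^ 2) - E (lp ^ 2) ≤ e / K * V →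
      |∫ g : ℂ, ac q g * ∫ w : ℂ, gs (lt ^ 2 / 2) w *
          c4 f ((l : ℂ) * a₁ * g) ((l : ℂ) * a₂ * g) w| ≤
          16 * Real.pi * R ^ 3 * (B ^ 2 * Real.pi * R ^ 2) * ‖a₂ - a₁‖ *
            (l / Real.sqrt (lt ^ 2 / 2)) * V +
          2 * (Wq q (lm ^ 2 / 2 / l ^ 2) + 2 * R * l / Real.sqrt (lp ^ 2 / 2) *
            (B * Real.pi * R ^ 2)) ^ 2 * V +
          2 * (B * Real.pi * R ^ 2) ^ 2 * (E (2 * (lm ^ 2 / 2)) - E (2 * (lp ^ 2 / 2))) →
      |∫ x : ℂ, ∫ v : ℂ, q v * (f x * f (x + (l : ℂ) * a₁ * v) *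
        f (x + (l : ℂ) * a₂ * v))| ≤ Real.sqrt (8 * e) * V := by
  set b := ‖a₂ - a₁‖ with hb
  have hpi := Real.pi_pos
  set K1 := 4 * Real.pi * R ^ 2 * (2 * B) with hK1
  set K2 := 4 * Real.pi * R ^ 2 * (2 * R * b * (B ^ 2 * Real.pi * R ^ 2)) * 2 with hK2
  set K3 := 4 * Real.pi * R ^ 2 * (B ^ 2 * Real.pi * R ^ 2) with hK3
  set K4 := B ^ 2 * Real.pi * R ^ 2 * (Real.pi * Real.exp (4 * R ^ 2 * ‖a₂‖ ^ 2) / ‖a₂‖ ^ 2)
    with hK4
  set K5 := 16 * Real.pi * R ^ 3 * (B ^ 2 * Real.pi * R ^ 2) * b * 2 with hK5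
  set K6 := 2 * R * (B * Real.pi * R ^ 2) * 2 with hK6
  set K7 := 2 * (B * Real.pi * R ^ 2) ^ 2 with hK7
  have hb0 : 0 ≤ b := norm_nonneg _
  have n1 : 0 ≤ K1 := by positivity
  have n2 : 0 ≤ K2 := by positivity
  have n3 : 0 ≤ K3 := by positivity
  have n4 : 0 ≤ K4 := by positivity
  have n5 : 0 ≤ K5 := by positivity
  have n6 : 0 ≤ K6 := by positivity
  have n7 : 0 ≤ K7 := by positivity
  refine ⟨1 + K1 + K2 + K3 + K4 + K5 + K6 + K7, by linarith, ?_⟩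
  set K := 1 + K1 + K2 + K3 + K4 + K5 + K6 + K7 with hK
  intro V e κ q f l lm lp lt E hq hf hq0 hV he he8 hκ hκe hlm hlml hlp hlt hW1 hW0 hW2 hU hE hS3
  have hK0 : 0 < K := by linarith
  have hl : 0 < l := lt_of_lt_of_le hlm hlml
  have hlp0 : 0 < lp := by
    by_contra h
    have : κ * lp ≤ 0 := mul_nonpos_of_nonneg_of_nonpos hκ.le (not_lt.1 h)
    linarith
  have hlt0 : 0 < lt := lt_of_lt_of_le hlp0 hlt
  have hK1' : K1 ≤ K := by linarith
  have hK2' : K2 ≤ K := by linarith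
  have hK3' : K3 ≤ K := by linarith
  have hK4' : K4 ≤ K := by linarith
  have hK5' : K5 ≤ K := by linarith
  have hK6' : K6 ≤ K := by linarith
  have hK7' : K7 ≤ K := by linarith
  have heK : 0 < e / K := by positivity
  -- small ratios
  have hsq : ∀ x : ℝ, 0 < x → l ≤ κ * x → l / Real.sqrt (x ^ 2 / 2) ≤ 2 * κ := by
    intro x hx hlx
    have h1 : x / 2 ≤ Real.sqrt (x ^ 2 / 2) := by
      apply Real.le_sqrt_of_sq_le
      nlinarith [sq_nonneg x]
    have h2 : 0 < Real.sqrt (x ^ 2 / 2) := lt_of_lt_of_le (by positivity) h1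
    rw [div_le_iff₀ h2]
    calc l ≤ κ * x := hlx
      _ = 2 * κ * (x / 2) := by ring
      _ ≤ 2 * κ * Real.sqrt (x ^ 2 / 2) := mul_le_mul_of_nonneg_left h1 (by positivity)
  have hr1 := hsq lt hlt0 (hlp.trans (mul_le_mul_of_nonneg_left hlt hκ.le))
  have hr2 := hsq lp hlp0 hlp
  have hr1' : 0 ≤ l / Real.sqrt (lt ^ 2 / 2) := by positivity
  have hr2' : 0 ≤ l / Real.sqrt (lp ^ 2 / 2) := by positivity
  have hKκ : K * κ ≤ e := by
    calc K * κ ≤ K * (e / K) := mul_le_mul_of_nonneg_left hκe hK0.le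
      _ = e := by field_simp
  have hKe : K * (e / K) = e := by field_simp
  -- step 2
  have hs2 := step2 a₁ a₂ h2 h12 B R V l (lm ^ 2 / 2) (lt ^ 2 / 2) (e / K) q f hB hR hq hf hl
    (by positivity) (by
      have : lm ≤ lt := by
        have h1 : κ ≤ 1 := by
          calc κ ≤ e / K := hκe
            _ ≤ e / 1 := div_le_div_of_nonneg_left he.le one_pos (by linarith)
            _ ≤ 1 := by linarith
        calc lm ≤ l := hlml
          _ ≤ κ * lp := hlp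
          _ ≤ 1 * lp := mul_le_mul_of_nonneg_right h1 hlp0.le
          _ ≤ lt := by linarith
      have := pow_le_pow_left₀ hlm.le this 2
      linarith) heK
  rw [show 2 * (lm ^ 2 / 2) = lm ^ 2 by ring, show 2 * (lt ^ 2 / 2) = lt ^ 2 by ring] at hs2
  rw [show 2 * (lm ^ 2 / 2) = lm ^ 2 by ring, show 2 * (lp ^ 2 / 2) = lp ^ 2 by ring] at hS3
  set I := ∫ g : ℂ, ∫ v : ℂ, q v * q (v + g) *
        c4 f ((l : ℂ) * a₁ * g) ((l : ℂ) * a₂ * g) ((l : ℂ) * (a₂ - a₁) * v) with hI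
  set I' := ∫ g : ℂ, ac q g * ∫ w : ℂ, gs (lt ^ 2 / 2) w *
    c4 f ((l : ℂ) * a₁ * g) ((l : ℂ) * a₂ * g) w with hI'
  set A := l / Real.sqrt (lt ^ 2 / 2) with hA
  set A' := l / Real.sqrt (lp ^ 2 / 2) with hA'
  set W1 := Wq q (lm ^ 2 / 2 / (l * b) ^ 2) with hW1d
  set W2 := Wq q (lm ^ 2 / 2 / l ^ 2) with hW2d
  set dU := Ub f (l ^ 2) (lm ^ 2) - Ub f (l ^ 2) (lt ^ 2) with hdU
  set dE := E (lm ^ 2) - E (lp ^ 2) with hdE
  have hb2 : |I - I'| ≤ 4 * e * V := by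
    refine hs2.trans ?_
    have e1 : 4 * Real.pi * R ^ 2 * ((2 * B * W1 +
        2 * R * (l * b) / Real.sqrt (lt ^ 2 / 2) * (B ^ 2 * Real.pi * R ^ 2)) * V +
        B ^ 2 * Real.pi * R ^ 2 * (e / K * V)) +
      B ^ 2 * Real.pi * R ^ 2 / (e / K) *
        (Real.pi * Real.exp (4 * R ^ 2 * ‖a₂‖ ^ 2) / ‖a₂‖ ^ 2) * dU
        = K1 * W1 * V + K2 * (A / 2) * V + K3 * (e / K) * V + K4 / (e / K) * dU := by
      rw [hK1, hK2, hK3, hK4, hA]
      ring
    rw [e1]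
    have t1 : K1 * W1 * V ≤ e * V := by
      apply mul_le_mul_of_nonneg_right _ hV.le
      calc K1 * W1 ≤ K1 * (e / K) := mul_le_mul_of_nonneg_left hW1 n1
        _ ≤ K * (e / K) := mul_le_mul_of_nonneg_right hK1' heK.le
        _ = e := hKe
    have t2 : K2 * (A / 2) * V ≤ e * V := by
      apply mul_le_mul_of_nonneg_right _ hV.le
      calc K2 * (A / 2) ≤ K2 * κ := mul_le_mul_of_nonneg_left (by linarith) n2
        _ ≤ K * κ := mul_le_mul_of_nonneg_right hK2' hκ.le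
        _ ≤ e := hKκ
    have t3 : K3 * (e / K) * V ≤ e * V := by
      apply mul_le_mul_of_nonneg_right _ hV.le
      calc K3 * (e / K) ≤ K * (e / K) := mul_le_mul_of_nonneg_right hK3' heK.le
        _ = e := hKe
    have t4 : K4 / (e / K) * dU ≤ e * V := by
      calc K4 / (e / K) * dU ≤ K4 / (e / K) * (e ^ 2 / K ^ 2 * V) :=
            mul_le_mul_of_nonneg_left hU (by positivity)
        _ = K4 * (e / K) * V := by field_simp
        _ ≤ K * (e / K) * V := by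
          apply mul_le_mul_of_nonneg_right _ hV.le
          exact mul_le_mul_of_nonneg_right hK4' heK.le
        _ = e * V := by rw [hKe]
    linarith
  have hb3 : |I'| ≤ 4 * e * V := by
    refine hS3.trans ?_
    have e1 : 16 * Real.pi * R ^ 3 * (B ^ 2 * Real.pi * R ^ 2) * b * A * V +
          2 * (W2 + 2 * R * l / Real.sqrt (lp ^ 2 / 2) * (B * Real.pi * R ^ 2)) ^ 2 * V +
          2 * (B * Real.pi * R ^ 2) ^ 2 * dE
        = K5 * (A / 2) * V + 2 * (W2 + K6 * (A' / 2)) ^ 2 * V + K7 * dE := by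
      rw [hK5, hK6, hK7, hA, hA']
      ring
    rw [e1]
    have t1 : K5 * (A / 2) * V ≤ e * V := by
      apply mul_le_mul_of_nonneg_right _ hV.le
      calc K5 * (A / 2) ≤ K5 * κ := mul_le_mul_of_nonneg_left (by linarith) n5
        _ ≤ K * κ := mul_le_mul_of_nonneg_right hK5' hκ.le
        _ ≤ e := hKκ
    have t2 : 2 * (W2 + K6 * (A' / 2)) ^ 2 * V ≤ e * V := by
      apply mul_le_mul_of_nonneg_right _ hV.le
      have h5 : W2 + K6 * (A' / 2) ≤ 2 * e := by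
        have h6 : K6 * (A' / 2) ≤ e := by
          calc K6 * (A' / 2) ≤ K6 * κ := mul_le_mul_of_nonneg_left (by linarith) n6
            _ ≤ K * κ := mul_le_mul_of_nonneg_right hK6' hκ.le
            _ ≤ e := hKκ
        have h7 : W2 ≤ e := by
          calc W2 ≤ e / K := hW2
            _ ≤ e / 1 := div_le_div_of_nonneg_left he.le one_pos (by linarith)
            _ = e := div_one e
        linarith
      have h0 : 0 ≤ W2 + K6 * (A' / 2) := by positivity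
      calc 2 * (W2 + K6 * (A' / 2)) ^ 2 ≤ 2 * (2 * e) ^ 2 := by
            apply mul_le_mul_of_nonneg_left _ (by norm_num)
            exact pow_le_pow_left₀ h0 h5 2
        _ = 8 * e * e := by ring
        _ ≤ 1 * e := mul_le_mul_of_nonneg_right (by linarith) he.le
        _ = e := one_mul e
    have t3 : K7 * dE ≤ e * V := by
      calc K7 * dE ≤ K7 * (e / K * V) := mul_le_mul_of_nonneg_left hE n7
        _ = K7 * (e / K) * V := by ring
        _ ≤ K * (e / K) * V := by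
          apply mul_le_mul_of_nonneg_right _ hV.le
          exact mul_le_mul_of_nonneg_right hK7' heK.le
        _ = e * V := by rw [hKe]
    have : 0 ≤ e * V := by positivity
    linarith
  have hIle : I ≤ 8 * e * V := by
    have h5 : I ≤ |I - I'| + |I'| := by
      calc I = (I - I') + I' := by ring
        _ ≤ |I - I'| + |I'| := add_le_add (le_abs_self _) (le_abs_self _)
    linarith
  have hs1 := step1 a₁ a₂ B R V l q f hq hf
  rw [← hI] at hs1
  have hT2 : (∫ x : ℂ, ∫ v : ℂ, q v * (f x * f (x + (l : ℂ) * a₁ * v) *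
      f (x + (l : ℂ) * a₂ * v))) ^ 2 ≤ (Real.sqrt (8 * e) * V) ^ 2 := by
    calc _ ≤ V * I := hs1
      _ ≤ V * (8 * e * V) := mul_le_mul_of_nonneg_left hIle hV.le
      _ = (Real.sqrt (8 * e) * V) ^ 2 := by
        rw [mul_pow, Real.sq_sqrt (by positivity)]
        ring
  exact abs_le_of_sq_le_sq hT2 (by positivity)

theorem kernels (a₁ a₂ : ℂ) (h1 : a₁ ≠ 0) (h2 : a₂ ≠ 0) (h12 : a₁ ≠ a₂) (n : ℕ)
    (q : Fin n → ℂ → ℝ) (hq : ∀ i, Measurable (q i)) (B R : ℝ) (hB : ∀ i v, |q i v| ≤ B)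
    (hR : ∀ i v, R < ‖v‖ → q i v = 0) (h0 : ∀ i, ∫ v, q i v = 0) (ε : ℝ) (hε : 0 < ε) :
    ∃ (κ : ℝ) (J : ℕ), 0 < κ ∧ ∀ (l : ℕ → ℝ) (f : ℂ → ℝ) (V : ℝ), (∀ j, 0 < l j) →
      (∀ j, l j ≤ κ * l (j + 1)) → Measurable f → (∀ x, 0 ≤ f x ∧ f x ≤ 1) → Integrable f →
      0 < V → ∫ x, f x ≤ V →
      ∃ j < J, ∀ i, |∫ x : ℂ, ∫ v : ℂ, q i v * (f x * f (x + (l j : ℂ) * a₁ * v) *
        f (x + (l j : ℂ) * a₂ * v))| ≤ ε * V := by
  have hKr : ∀ i, Kr |B| |R| (q i) := fun i =>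
    ⟨hq i, fun v => (hB i v).trans (le_abs_self B),
      fun v hv => hR i v (lt_of_le_of_lt (le_abs_self R) hv)⟩
  obtain ⟨K, hK1, hmain⟩ := kpg_main a₁ a₂ h2 h12 |B| |R| (abs_nonneg _) (abs_nonneg _)
  set e : ℝ := min (ε ^ 2 / 8) (1 / 8) with he
  have he0 : 0 < e := by positivity
  have he8 : e ≤ 1 / 8 := min_le_right _ _
  have hsqrt : Real.sqrt (8 * e) ≤ ε := by
    rw [Real.sqrt_le_left hε.le]
    have : e ≤ ε ^ 2 / 8 := min_le_left _ _
    linarith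
  have hK0 : 0 < K := by linarith
  -- the modulus of continuity
  obtain ⟨s₀, hs₀, hW⟩ : ∃ s₀ : ℝ, 0 < s₀ ∧ ∀ i s, 0 < s → s ≤ s₀ → Wq (q i) s ≤ e / K := by
    have h : ∀ i, ∃ s₀ : ℝ, 0 < s₀ ∧ ∀ s, 0 < s → s ≤ s₀ → Wq (q i) s ≤ e / K := fun i =>
      Wq_small (q i) (kpg_int (hKr i)) (e / K) (by positivity)
    choose s hs hs' using h
    rcases Nat.eq_zero_or_pos n with hn | hn
    · subst hn
      exact ⟨1, one_pos, fun i => i.elim0⟩
    · have : Nonempty (Fin n) := ⟨⟨0, hn⟩⟩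
      have hne : (Finset.univ : Finset (Fin n)).Nonempty := Finset.univ_nonempty
      refine ⟨Finset.univ.inf' hne s, ?_, ?_⟩
      · rw [Finset.lt_inf'_iff]
        exact fun i _ => hs i
      · intro i t ht ht'
        exact hs' i t ht (ht'.trans (Finset.inf'_le _ (Finset.mem_univ i)))
  set b := ‖a₂ - a₁‖ with hb
  have hb0 : 0 < b := norm_pos_iff.2 (sub_ne_zero.2 (Ne.symm h12))
  set κ : ℝ := min (e / K) (min s₀ (s₀ * b ^ 2)) with hκ
  have hκ0 : 0 < κ := by positivity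
  have hκ1 : κ ≤ e / K := min_le_left _ _
  have hκ2 : κ ≤ s₀ := (min_le_right _ _).trans (min_le_left _ _)
  have hκ3 : κ ≤ s₀ * b ^ 2 := (min_le_right _ _).trans (min_le_right _ _)
  have hκle : κ ≤ 1 := by
    calc κ ≤ e / K := hκ1
      _ ≤ e / 1 := div_le_div_of_nonneg_left he0.le one_pos hK1
      _ ≤ 1 := by linarith
  obtain ⟨M, hM⟩ : ∃ M : ℕ, K ^ 2 / e ^ 2 < M := exists_nat_gt _
  obtain ⟨N, hN⟩ : ∃ N : ℕ, 2 * K / e < N := exists_nat_gt _
  have hM0 : (0:ℝ) < M := lt_trans (by positivity) hM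
  have hN0 : (0:ℝ) < N := lt_trans (by positivity) hN
  have hM0' : 0 < M := by exact_mod_cast hM0
  have hN0' : 0 < N := by exact_mod_cast hN0
  refine ⟨κ, M * (N + 1), hκ0, ?_⟩
  intro l f V hl hll hfm hf01 hfi hV hfV
  have hf : Fn V f := ⟨hfm, fun x => (hf01 x).1, fun x => (hf01 x).2, hfi, hfV⟩
  have hmono : ∀ i j, i ≤ j → l i ≤ l j := by
    intro i j hij
    have : Monotone l := monotone_nat_of_le_succ (fun j => by
      calc l j ≤ κ * l (j + 1) := hll j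
        _ ≤ 1 * l (j + 1) := mul_le_mul_of_nonneg_right hκle (hl _).le
        _ = l (j + 1) := one_mul _)
    exact this hij
  have hUmono : ∀ x x' y y' : ℝ, 0 < x → x ≤ x' → 0 < y → y ≤ y' → Ub f x' y' ≤ Ub f x y := by
    intro x x' y y' hx hxx hy hyy
    have hx' : 0 < x' := lt_of_lt_of_le hx hxx
    have hy' : 0 < y' := lt_of_lt_of_le hy hyy
    calc Ub f x' y' ≤ Ub f x' y := Ub_anti V f hf x' y y' hx' hy hyy
      _ = Ub f y x' := Ub_symm V f hf _ _ hx' hy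
      _ ≤ Ub f y x := Ub_anti V f hf y x x' hy hx hxx
      _ = Ub f x y := Ub_symm V f hf _ _ hy hx
  -- first pigeonhole
  have hl2 : ∀ j, 0 < l j ^ 2 := fun j => by have := hl j; positivity
  obtain ⟨m, hm, hmU⟩ := kpg_one (fun m => Ub f (l (m * (N + 1)) ^ 2) (l (m * (N + 1)) ^ 2)) V
    (fun m => (Ub_bounds V f hf _ _ (hl2 _) (hl2 _)).1)
    (Ub_bounds V f hf _ _ (hl2 _) (hl2 _)).2 M hM0'
  set j₀ := m * (N + 1) with hj₀
  have hj1 : (m + 1) * (N + 1) = j₀ + N + 1 := by rw [hj₀]; ring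
  simp only [hj1] at hmU
  -- second pigeonhole
  obtain ⟨E, hE01, hEanti, hE⟩ := step3 a₁ a₂ V f hf (l (j₀ + N + 1) ^ 2 / 2) (by
    have := hl2 (j₀ + N + 1); positivity)
  obtain ⟨r, hr, hrE⟩ := kpg_two (fun j => E (l j ^ 2)) V (fun j => (hE01 _ (hl2 j)).1)
    (fun j => (hE01 _ (hl2 j)).2) j₀ N hN0'
  refine ⟨j₀ + r + 1, ?_, ?_⟩
  · calc j₀ + r + 1 < j₀ + N + 1 := by omega
      _ = (m + 1) * (N + 1) := hj1.symm
      _ ≤ M * (N + 1) := Nat.mul_le_mul_right _ hm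
  intro i
  have hlj := hl (j₀ + r + 1)
  have hljm := hl (j₀ + r)
  have hratio : l (j₀ + r) ^ 2 / 2 ≤ κ * l (j₀ + r + 1) ^ 2 := by
    have h5 := hll (j₀ + r)
    have h6 : l (j₀ + r) ^ 2 ≤ (κ * l (j₀ + r + 1)) ^ 2 := pow_le_pow_left₀ hljm.le h5 2
    have h7 : (κ * l (j₀ + r + 1)) ^ 2 ≤ κ * l (j₀ + r + 1) ^ 2 := by
      rw [mul_pow]
      apply mul_le_mul_of_nonneg_right _ (by positivity)
      nlinarith
    have : 0 < l (j₀ + r) ^ 2 := hl2 _
    linarith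
  have hfin := hmain V e κ (q i) f (l (j₀ + r + 1)) (l (j₀ + r)) (l (j₀ + r + 2))
    (l (j₀ + N + 1)) E (hKr i) hf (h0 i) hV he0 he8 hκ0 hκ1 hljm (hmono _ _ (by omega))
    (hll (j₀ + r + 1)) (hmono _ _ (by omega))
    (hW i _ (by positivity) (by
      rw [div_le_iff₀ (by positivity), mul_pow]
      calc l (j₀ + r) ^ 2 / 2 ≤ κ * l (j₀ + r + 1) ^ 2 := hratio
        _ ≤ (s₀ * b ^ 2) * l (j₀ + r + 1) ^ 2 :=
          mul_le_mul_of_nonneg_right hκ3 (by positivity)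
        _ = s₀ * (l (j₀ + r + 1) ^ 2 * b ^ 2) := by ring))
    (Wq_nonneg _ _ (by positivity))
    (hW i _ (by positivity) (by
      rw [div_le_iff₀ (by positivity)]
      exact hratio.trans (mul_le_mul_of_nonneg_right hκ2 (by positivity))))
    (by
      have h5 : Ub f (l (j₀ + r + 1) ^ 2) (l (j₀ + r) ^ 2) ≤ Ub f (l j₀ ^ 2) (l j₀ ^ 2) :=
        hUmono _ _ _ _ (hl2 _) (pow_le_pow_left₀ (hl _).le (hmono _ _ (by omega)) 2) (hl2 _)
          (pow_le_pow_left₀ (hl _).le (hmono _ _ (by omega)) 2)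
      have h6 : Ub f (l (j₀ + N + 1) ^ 2) (l (j₀ + N + 1) ^ 2)
          ≤ Ub f (l (j₀ + r + 1) ^ 2) (l (j₀ + N + 1) ^ 2) :=
        hUmono _ _ _ _ (hl2 _) (pow_le_pow_left₀ (hl _).le (hmono _ _ (by omega)) 2) (hl2 _)
          le_rfl
      have h7 : V / M ≤ e ^ 2 / K ^ 2 * V := by
        rw [div_le_iff₀ hM0]
        have h8 : 1 ≤ e ^ 2 / K ^ 2 * M := by
          rw [div_mul_eq_mul_div, le_div_iff₀ (by positivity), one_mul]
          rw [div_lt_iff₀ (by positivity)] at hM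
          linarith
        calc V = 1 * V := (one_mul V).symm
          _ ≤ (e ^ 2 / K ^ 2 * M) * V := mul_le_mul_of_nonneg_right h8 hV.le
          _ = e ^ 2 / K ^ 2 * V * M := by ring
      linarith)
    (by
      refine hrE.trans ?_
      rw [div_le_iff₀ hN0]
      have h8 : 2 ≤ e / K * N := by
        rw [div_mul_eq_mul_div, le_div_iff₀ hK0]
        rw [div_lt_iff₀ he0] at hN
        linarith
      calc 2 * V ≤ (e / K * N) * V := mul_le_mul_of_nonneg_right h8 hV.le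
        _ = e / K * V * N := by ring)
    (hE |B| |R| (l (j₀ + r + 1)) (l (j₀ + r) ^ 2 / 2) (l (j₀ + r + 2) ^ 2 / 2) (q i)
      (abs_nonneg _) (abs_nonneg _) (hKr i) (h0 i) hlj (by positivity) (by
        have := pow_le_pow_left₀ hljm.le (hmono (j₀ + r) (j₀ + r + 2) (by omega)) 2
        linarith))
  exact hfin.trans (mul_le_mul_of_nonneg_right hsqrt hV.le)

end Pool.Agent.H16.Kn
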